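import Pool.Agent.H70.DL.Far

/-! # Localisation of the geodesic near its starting point. Paper 13.3. -/

open MeasureTheory ProbabilityTheory Filter Topology Set
open scoped ENNReal

namespace Pool.Agent.H70.DL

open Pool.Agent.H37.DL

variable {Ω : Type*} [MeasurableSpace Ω] {P : Measure Ω} [IsProbabilityMeasure P]
  {L : Ω → ℝ → ℝ → ℝ → ℝ → ℝ} {Pi : Ω → C(unitInterval, ℝ)}

/-- the forward part: far away the profile is well below its value at `0` -/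
theorem forward_far (hL : IsDirectedLandscape P L) {T : ℝ} (hT : 0 < T) {δ : ℝ≥0∞}
    (hδ : 0 < δ) : ∃ K₀ : ℝ, ∀ K, K₀ ≤ K → ∀ ε : ℝ, 0 < ε →
      P {ω | Far K (-(1 / (2 * T))) fun x => resc (L ω) 0 (ε ^ 3) 0 0 x T -
        resc (L ω) 0 (ε ^ 3) 0 0 0 T} ≤ δ := by
  have hm : ∀ x, Measurable fun ω => L ω 0 0 x T - L ω 0 0 0 T := fun x =>
    (hL.meas _ _ hT).sub (hL.meas _ _ hT)
  have hc : ∀ ω, Continuous fun x => L ω 0 0 x T - L ω 0 0 0 T := fun ω =>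
    (continuous_forward hL ω hT 0).sub continuous_const
  obtain ⟨K₀, hK₀⟩ := far_small (P := P) (F := fun ω x => L ω 0 0 x T - L ω 0 0 0 T) hm hc
    (α := -(1 / (2 * T))) (by
      filter_upwards [forward_growth hL hT (η := 1 / 4) (by norm_num)] with ω hω
      obtain ⟨R, hR⟩ := hω
      refine ⟨max R (4 * T * |L ω 0 0 0 T| + 1), fun x hx => ?_⟩
      have h1 := hR x ((le_max_left _ _).trans hx)
      have h2 := (le_max_right _ _).trans hx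
      have h3 : 0 ≤ 4 * T * |L ω 0 0 0 T| := by positivity
      have h4 : 4 * T * |L ω 0 0 0 T| ≤ x ^ 2 := by
        rw [← sq_abs]
        nlinarith
      have h5 : -L ω 0 0 0 T ≤ 1 / (4 * T) * x ^ 2 := by
        calc -L ω 0 0 0 T ≤ |L ω 0 0 0 T| := neg_le_abs _
          _ = 1 / (4 * T) * (4 * T * |L ω 0 0 0 T|) := by field_simp
          _ ≤ 1 / (4 * T) * x ^ 2 := mul_le_mul_of_nonneg_left h4 (by positivity)
      have h6 : -(1 - 1 / 4) / T * x ^ 2 + 1 / (4 * T) * x ^ 2 = -(1 / (2 * T)) * x ^ 2 := by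
        field_simp
        ring
      linarith) hδ
  refine ⟨K₀, fun K hK ε hε => ?_⟩
  have hr : IsDirectedLandscape P fun ω => resc (L ω) 0 (ε ^ 3) := hL.rescale 0 (pow_pos hε 3)
  have hm' : ∀ x, Measurable fun ω => resc (L ω) 0 (ε ^ 3) 0 0 x T -
      resc (L ω) 0 (ε ^ 3) 0 0 0 T := fun x => (hr.meas _ _ hT).sub (hr.meas _ _ hT)
  have hc' : ∀ ω, Continuous fun x => resc (L ω) 0 (ε ^ 3) 0 0 x T -
      resc (L ω) 0 (ε ^ 3) 0 0 0 T := fun ω =>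
    (continuous_forward hr ω hT 0).sub continuous_const
  have mΦ : Measurable fun (v : Q4 → ℝ) (x : ℝ) =>
      v ⟨(0, 0, x, T), hT⟩ - v ⟨(0, 0, 0, T), hT⟩ := by
    refine measurable_pi_lambda _ fun x => ?_
    have m1 : Measurable fun v : Q4 → ℝ => v ⟨(0, 0, x, T), hT⟩ := measurable_pi_apply _
    have m2 : Measurable fun v : Q4 → ℝ => v ⟨(0, 0, 0, T), hT⟩ := measurable_pi_apply _
    exact m1.sub m2
  have h1 := map_eq_of_landscape hr hL mΦ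
  rw [far_measure hm' hc']
  have h2 := hK₀ K hK
  rw [far_measure hm hc] at h2
  refine le_trans (le_of_eq ?_) h2
  exact congrArg (fun μ : Measure (ℝ → ℝ) => μ {f : ℝ → ℝ | ∃ r : ℚ, K < |(r : ℝ)| ∧
    -(1 / (2 * T)) * (r : ℝ) ^ 2 < f r}) h1

/-- rationals in `(-2, 2)` -/
abbrev R2 : Type := {r : ℚ // |(r : ℝ)| < 2}

/-- the backward part: the germ stays below a parabola -/
theorem backward_far (hL : IsDirectedLandscape P L) {T : ℝ} (hT : 0 < T) {α : ℝ} (hα : 0 < α)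
    {δ : ℝ≥0∞} (hδ : 0 < δ) : ∃ K₀ : ℝ, ∀ K, K₀ ≤ K → ∃ ε₀ : ℝ, 0 < ε₀ ∧ ∀ ε : ℝ, 0 < ε →
      ε < ε₀ → P {ω | Far K α (germ (L ω) T ε)} ≤ δ + δ := by
  obtain ⟨Ωb, _, Pb, b, _, hb⟩ := exists_isBM
  have hm : ∀ z, Measurable fun ω => L ω z 0 0 1 - L ω 0 0 0 1 := fun x =>
    (hL.meas _ _ zero_lt_one).sub (hL.meas _ _ zero_lt_one)
  have hc : ∀ ω, Continuous fun z => L ω z 0 0 1 - L ω 0 0 0 1 := fun ω =>
    (continuous_backward hL ω zero_lt_one 0).sub continuous_const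
  -- steep part
  obtain ⟨M₀, hM₀⟩ := steep_small (P := P) (F := fun ω z => L ω z 0 0 1 - L ω 0 0 0 1) hm hc (by
    filter_upwards [backward_growth hL] with ω hω
    obtain ⟨R, hR⟩ := hω
    obtain ⟨B, hB⟩ := (isCompact_Icc (a := -R) (b := R)).bddAbove_image
      (hc ω).continuousOn
    refine ⟨|B| + |L ω 0 0 0 1|, fun z hz => ?_⟩
    have hz2 : 1 ≤ z ^ 2 := by
      rw [← sq_abs]
      nlinarith
    have h0 : 0 ≤ |B| + |L ω 0 0 0 1| := by positivity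
    have h1 : L ω z 0 0 1 - L ω 0 0 0 1 ≤ |B| + |L ω 0 0 0 1| := by
      rcases le_or_gt R |z| with h | h
      · have h2 := hR z h
        have h3 := neg_le_abs (L ω 0 0 0 1)
        have h4 := abs_nonneg B
        linarith
      · have h2 : L ω z 0 0 1 - L ω 0 0 0 1 ≤ B :=
          hB ⟨z, ⟨(abs_lt.1 h).1.le, (abs_lt.1 h).2.le⟩, rfl⟩
        have h3 := le_abs_self B
        have h4 := abs_nonneg (L ω 0 0 0 1)
        linarith
    nlinarith) hδ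
  -- near part
  have hac := hL.ac_backward hb zero_lt_one (fun r : R2 => ((r : ℚ) : ℝ)) 2
    (fun r => r.2.le)
  obtain ⟨η, hη, hac'⟩ := ac_small hac hδ
  obtain ⟨K₂, hK₂⟩ := ((tendsto_order.1 (hb.growth hα)).2 η hη).exists_forall_of_atTop
  refine ⟨max K₂ 0, fun K hK => ?_⟩
  have hK2 : K₂ ≤ K := (le_max_left _ _).trans hK
  have hK0 : 0 ≤ K := (le_max_right _ _).trans hK
  have hM1 : 0 < |M₀| + 1 := by positivity
  refine ⟨min 1 (min (1 / (2 * T)) (α / (2 * (|M₀| + 1)))), by positivity, fun ε hε hε0 => ?_⟩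
  have e1 : ε < 1 := hε0.trans_le (min_le_left _ _)
  have e2 : ε < 1 / (2 * T) := hε0.trans_le ((min_le_right _ _).trans (min_le_left _ _))
  have e3 : ε < α / (2 * (|M₀| + 1)) := hε0.trans_le ((min_le_right _ _).trans (min_le_right _ _))
  have e4 : ε ^ 3 ≤ ε := by
    calc ε ^ 3 = ε * (ε * ε) := by ring
      _ ≤ ε * 1 := mul_le_mul_of_nonneg_left (by nlinarith) hε.le
      _ = ε := mul_one ε
  have e5 : ε ^ 3 * T ≤ 1 / 2 := by
    have h1 : ε * T ≤ 1 / 2 := by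
      rw [lt_div_iff₀ (by positivity)] at e2
      linarith
    exact (mul_le_mul_of_nonneg_right e4 hT.le).trans h1
  have hτ : ε ^ 3 * T < 1 := by linarith
  set c : ℝ := 1 - ε ^ 3 * T with hcdef
  have hc0 : 0 < c := by linarith
  have hc1 : 1 / 2 ≤ c := by linarith
  set d : ℝ := c ^ (1 / 3 : ℝ) with hd
  have hd0 : 0 < d := Real.rpow_pos_of_pos hc0 _
  have hd3 : d ^ 3 = c := by
    rw [hd, ← Real.rpow_natCast, ← Real.rpow_mul hc0.le]
    norm_num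
  set ε' : ℝ := ε * d⁻¹ with hε'
  have hε'0 : 0 < ε' := mul_pos hε (inv_pos.2 hd0)
  have hε'3 : ε' ^ 3 = ε ^ 3 / c := by
    rw [hε', mul_pow, inv_pow, hd3]
    rfl
  have hM : M₀ ≤ α / ε' ^ 3 := by
    rw [hε'3, div_div_eq_mul_div, le_div_iff₀ (pow_pos hε 3)]
    have h1 : M₀ * ε ^ 3 ≤ (|M₀| + 1) * ε := by
      have h2 : M₀ * ε ^ 3 ≤ |M₀| * ε ^ 3 :=
        mul_le_mul_of_nonneg_right (le_abs_self _) (pow_pos hε 3).le
      have h3 : |M₀| * ε ^ 3 ≤ |M₀| * ε := mul_le_mul_of_nonneg_left e4 (abs_nonneg _)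
      nlinarith
    have h2 : (|M₀| + 1) * ε ≤ α / 2 := by
      rw [lt_div_iff₀ (by positivity)] at e3
      linarith
    have h3 : α / 2 ≤ α * c := by nlinarith
    linarith
  -- law of the germ
  have hr : IsDirectedLandscape P fun ω => resc (L ω) (ε ^ 3 * T) (1 - ε ^ 3 * T) :=
    hL.rescale _ hc0
  have hmg : ∀ x, Measurable fun ω => germ (L ω) T ε x := fun x =>
    ((hL.meas _ _ hτ).sub (hL.meas _ _ hτ)).const_mul _
  have hcg : ∀ ω, Continuous (germ (L ω) T ε) := fun ω =>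
    (((continuous_backward hL ω hτ 0).comp (continuous_const.mul continuous_id)).sub
      continuous_const).const_mul _
  have hmf : ∀ x, Measurable fun ω => ε'⁻¹ * (L ω (ε' ^ 2 * x) 0 0 1 - L ω 0 0 0 1) := fun x =>
    (hm _).const_mul _
  have hcf : ∀ ω, Continuous fun x => ε'⁻¹ * (L ω (ε' ^ 2 * x) 0 0 1 - L ω 0 0 0 1) := fun ω =>
    ((hc ω).comp (continuous_const.mul continuous_id)).const_mul _
  have mΦ : Measurable fun (v : Q4 → ℝ) (x : ℝ) => ε'⁻¹ *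
      (v ⟨(ε' ^ 2 * x, 0, 0, 1), zero_lt_one⟩ - v ⟨(0, 0, 0, 1), zero_lt_one⟩) := by
    refine measurable_pi_lambda _ fun x => ?_
    have m1 : Measurable fun v : Q4 → ℝ => v ⟨(ε' ^ 2 * x, 0, 0, 1), zero_lt_one⟩ :=
      measurable_pi_apply _
    have m2 : Measurable fun v : Q4 → ℝ => v ⟨(0, 0, 0, 1), zero_lt_one⟩ :=
      measurable_pi_apply _
    exact (m1.sub m2).const_mul _
  have h1 := map_eq_of_landscape hr hL mΦ
  have h2 : P {ω | Far K α (germ (L ω) T ε)} =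
      P {ω | Far K α fun x => ε'⁻¹ * (L ω (ε' ^ 2 * x) 0 0 1 - L ω 0 0 0 1)} := by
    rw [far_measure hmg hcg, far_measure hmf hcf]
    have h3 : P.map (fun ω => germ (L ω) T ε) =
        P.map fun ω x => ε'⁻¹ * (L ω (ε' ^ 2 * x) 0 0 1 - L ω 0 0 0 1) := by
      rw [← show _ = P.map fun ω x => ε'⁻¹ * (L ω (ε' ^ 2 * x) 0 0 1 - L ω 0 0 0 1) from h1]
      congr 1
      funext ω x
      exact germ_eq (L ω) hε hτ x
    rw [h3]
  rw [h2]
  -- split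
  have hA : MeasurableSet {u : R2 → ℝ | ∃ r : R2, K * ε' ^ 2 < |((r : ℚ) : ℝ)| ∧
      α / ε' ^ 3 * ((r : ℚ) : ℝ) ^ 2 < u r} := by
    have : {u : R2 → ℝ | ∃ r : R2, K * ε' ^ 2 < |((r : ℚ) : ℝ)| ∧
      α / ε' ^ 3 * ((r : ℚ) : ℝ) ^ 2 < u r} = ⋃ r : R2, {u | K * ε' ^ 2 < |((r : ℚ) : ℝ)| ∧
      α / ε' ^ 3 * ((r : ℚ) : ℝ) ^ 2 < u r} := by
      ext u
      simp
    rw [this]
    exact MeasurableSet.iUnion fun r => (MeasurableSet.const _).inter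
      (measurableSet_lt measurable_const (measurable_pi_apply _))
  have mX : Measurable fun ω (r : R2) =>
      L ω ((r : ℚ) : ℝ) 0 0 1 - L ω 0 0 0 1 := measurable_pi_lambda _ fun r => hm _
  have mY : Measurable fun ω (r : R2) => b ω ((r : ℚ) : ℝ) :=
    measurable_pi_lambda _ fun r => hb.meas _
  have hscale : ∀ x : ℝ, α * x ^ 2 = ε'⁻¹ * (α / ε' ^ 3 * (ε' ^ 2 * x) ^ 2) := by
    intro x
    field_simp
  have hsub : {ω | Far K α fun x => ε'⁻¹ * (L ω (ε' ^ 2 * x) 0 0 1 - L ω 0 0 0 1)} ⊆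
      {ω | Far 1 (α / ε' ^ 3) fun z => L ω z 0 0 1 - L ω 0 0 0 1} ∪
      (fun ω (r : R2) => L ω ((r : ℚ) : ℝ) 0 0 1 - L ω 0 0 0 1) ⁻¹'
        {u | ∃ r : R2, K * ε' ^ 2 < |((r : ℚ) : ℝ)| ∧ α / ε' ^ 3 * ((r : ℚ) : ℝ) ^ 2 < u r} := by
    rintro ω ⟨x, hx1, hx2⟩
    have h3 : K * ε' ^ 2 < |ε' ^ 2 * x| := by
      rw [abs_mul, abs_of_pos (pow_pos hε'0 2), mul_comm K]
      exact mul_lt_mul_of_pos_left hx1 (pow_pos hε'0 2)
    have h4 : α / ε' ^ 3 * (ε' ^ 2 * x) ^ 2 < L ω (ε' ^ 2 * x) 0 0 1 - L ω 0 0 0 1 := by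
      rw [hscale x] at hx2
      exact lt_of_mul_lt_mul_left hx2 (inv_pos.2 hε'0).le
    by_cases h5 : 1 < |ε' ^ 2 * x|
    · exact Or.inl ⟨_, h5, h4⟩
    · right
      have ho : IsOpen {z : ℝ | K * ε' ^ 2 < |z| ∧ |z| < 2 ∧
          α / ε' ^ 3 * z ^ 2 < L ω z 0 0 1 - L ω 0 0 0 1} :=
        (isOpen_lt continuous_const continuous_abs).inter
          ((isOpen_lt continuous_abs continuous_const).inter (isOpen_lt (by fun_prop) (hc ω)))
      obtain ⟨r, hr1, hr2, hr3⟩ := Rat.denseRange_cast.exists_mem_open ho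
        ⟨ε' ^ 2 * x, h3, by linarith [not_lt.1 h5], h4⟩
      exact ⟨⟨r, hr2⟩, hr1, hr3⟩
  refine (measure_mono hsub).trans ((measure_union_le _ _).trans (add_le_add (hM₀ _ hM) ?_))
  rw [← Measure.map_apply mX hA]
  apply hac' _ hA
  rw [Measure.map_apply mY hA]
  -- Brownian scaling
  have hbs : IsBM Pb fun ω x => ε'⁻¹ * b ω (ε' ^ 2 * x) := hb.scale hε'0
  have h3 : Pb {ω | Far K α fun x => ε'⁻¹ * b ω (ε' ^ 2 * x)} = Pb {ω | Far K α (b ω)} := by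
    rw [far_measure hbs.meas hbs.cont, far_measure hb.meas hb.cont, hbs.unique hb]
  have h4 : Pb {ω | Far K α (b ω)} < η := by
    refine lt_of_le_of_lt (measure_mono ?_) (hK₂ K hK2)
    rintro ω ⟨x, hx1, hx2⟩
    exact ⟨x, hx1.le, hx2.le.trans (le_abs_self _)⟩
  rw [← h3] at h4
  refine lt_of_le_of_lt (measure_mono ?_) h4
  rintro ω ⟨r, hr1, hr2⟩
  refine ⟨(ε' ^ 2)⁻¹ * r, ?_, ?_⟩
  · rw [abs_mul, abs_of_pos (inv_pos.2 (pow_pos hε'0 2)), ← div_eq_inv_mul,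
      lt_div_iff₀ (pow_pos hε'0 2)]
    exact hr1
  · show α * ((ε' ^ 2)⁻¹ * ((r : ℚ) : ℝ)) ^ 2 <
      ε'⁻¹ * b ω (ε' ^ 2 * ((ε' ^ 2)⁻¹ * ((r : ℚ) : ℝ)))
    rw [hscale, mul_inv_cancel_left₀ (pow_pos hε'0 2).ne']
    exact mul_lt_mul_of_pos_left hr2 (inv_pos.2 hε'0)

/-- (13.3) -/
theorem loc (hL : IsDirectedLandscape P L) (hgeo : ∀ᵐ ω ∂P, IsGeodesic (L ω) (Pi ω)) {T : ℝ}
    (hT : 0 < T) {δ : ℝ} (hδ : 0 < δ) : ∃ K : ℝ, 0 < K ∧ ∃ ε₀ : ℝ, 0 < ε₀ ∧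
      ∀ ε : ℝ, 0 < ε → ε < ε₀ →
        P {ω | K ≤ |(ε ^ 2)⁻¹ * ext (Pi ω) (ε ^ 3 * T)|} ≤ ENNReal.ofReal δ := by
  have hδ3 : 0 < ENNReal.ofReal (δ / 3) := ENNReal.ofReal_pos.2 (by positivity)
  obtain ⟨K₁, hK₁⟩ := forward_far hL hT hδ3
  obtain ⟨K₂, hK₂⟩ := backward_far hL hT (α := 1 / (4 * T)) (by positivity) hδ3
  set K' : ℝ := max (max K₁ K₂) 0 with hK'
  have hK'1 : K₁ ≤ K' := (le_max_left _ _).trans (le_max_left _ _)
  have hK'2 : K₂ ≤ K' := (le_max_right _ _).trans (le_max_left _ _)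
  have hK'0 : 0 ≤ K' := le_max_right _ _
  obtain ⟨ε₀, hε₀, hb⟩ := hK₂ K' hK'2
  refine ⟨K' + 1, by linarith, min ε₀ (min 1 (1 / T)), by positivity, fun ε hε hε1 => ?_⟩
  have e1 : ε < ε₀ := hε1.trans_le (min_le_left _ _)
  have e2 : ε < 1 := hε1.trans_le ((min_le_right _ _).trans (min_le_left _ _))
  have e3 : ε < 1 / T := hε1.trans_le ((min_le_right _ _).trans (min_le_right _ _))
  have e4 : ε ^ 3 ≤ ε := by
    calc ε ^ 3 = ε * (ε * ε) := by ring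
      _ ≤ ε * 1 := mul_le_mul_of_nonneg_left (by nlinarith) hε.le
      _ = ε := mul_one ε
  have hτ : ε ^ 3 * T < 1 := by
    rw [lt_div_iff₀ hT] at e3
    exact (mul_le_mul_of_nonneg_right e4 hT.le).trans_lt e3
  have hτ0 : 0 < ε ^ 3 * T := by positivity
  have h13 : (ε ^ 3) ^ (1 / 3 : ℝ) = ε := by
    rw [← Real.rpow_natCast, ← Real.rpow_mul hε.le]
    norm_num
  have h23 : (ε ^ 3) ^ (2 / 3 : ℝ) = ε ^ 2 := by
    rw [← Real.rpow_natCast, ← Real.rpow_mul hε.le, ← Real.rpow_natCast]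
    norm_num
  have hcover : P {ω | K' + 1 ≤ |(ε ^ 2)⁻¹ * ext (Pi ω) (ε ^ 3 * T)|} ≤
      P ({ω | Far K' (-(1 / (2 * T))) fun x => resc (L ω) 0 (ε ^ 3) 0 0 x T -
        resc (L ω) 0 (ε ^ 3) 0 0 0 T} ∪ {ω | Far K' (1 / (4 * T)) (germ (L ω) T ε)}) := by
    apply measure_mono_ae
    filter_upwards [geodesic_unique hL hgeo hτ0 hτ] with ω hω hmem
    have h1 := (hω (ext (Pi ω) (ε ^ 3 * T))).2 rfl 0
    set z := ext (Pi ω) (ε ^ 3 * T) with hz
    set x := (ε ^ 2)⁻¹ * z with hx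
    have hx' : K' + 1 ≤ |x| := hmem
    have hzx : ε ^ 2 * x = z := by
      rw [hx, mul_inv_cancel_left₀ (pow_pos hε 2).ne']
    have h2 : (resc (L ω) 0 (ε ^ 3) 0 0 x T - resc (L ω) 0 (ε ^ 3) 0 0 0 T) +
        germ (L ω) T ε x = ε⁻¹ * ((L ω 0 0 z (ε ^ 3 * T) + L ω z (ε ^ 3 * T) 0 1) -
          (L ω 0 0 0 (ε ^ 3 * T) + L ω 0 (ε ^ 3 * T) 0 1)) := by
      simp only [resc, germ, h13, h23, mul_zero, add_zero, zero_add, hzx]
      ring
    have h3 : 0 ≤ (resc (L ω) 0 (ε ^ 3) 0 0 x T - resc (L ω) 0 (ε ^ 3) 0 0 0 T) +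
        germ (L ω) T ε x := by
      rw [h2]
      exact mul_nonneg (inv_pos.2 hε).le (by linarith)
    have hx0 : 0 < x ^ 2 := by
      rw [← sq_abs]
      have : 0 < |x| := by linarith
      positivity
    have h4 : 0 < 1 / (4 * T) * x ^ 2 := by positivity
    have h5 : 1 / (2 * T) * x ^ 2 = 2 * (1 / (4 * T) * x ^ 2) := by
      field_simp
      ring
    by_cases h6 : -(1 / (2 * T)) * x ^ 2 <
        resc (L ω) 0 (ε ^ 3) 0 0 x T - resc (L ω) 0 (ε ^ 3) 0 0 0 T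
    · exact Or.inl ⟨x, by linarith, h6⟩
    · right
      refine ⟨x, by linarith, ?_⟩
      have h7 := not_lt.1 h6
      linarith
  refine hcover.trans ((measure_union_le _ _).trans ?_)
  refine (add_le_add (hK₁ K' hK'1 ε hε) (hb ε hε e1)).trans (le_of_eq ?_)
  rw [← ENNReal.ofReal_add (by positivity) (by positivity),
    ← ENNReal.ofReal_add (by positivity) (by positivity)]
  congr 1
  ring

end Pool.Agent.H70.DL
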