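import Pool.Agent.H70.DL.Germ
import Pool.Agent.H37.DL.MixDefs

/-! # Mixing, part 2: countably many coordinates. Paper 13.2. -/

open MeasureTheory ProbabilityTheory Filter Topology Set
open scoped ENNReal

namespace Pool.Agent.H70.DL

open Pool.Agent.H37.DL

/-- rational quadruples with positive start time -/
abbrev QQ : Type := {q : ℚ × ℚ × ℚ × ℚ // 0 < q.2.1 ∧ q.2.1 < q.2.2.2}

/-- the corresponding real quadruple -/
def qr (q : QQ) : ℝ × ℝ × ℝ × ℝ := (q.1.1, q.1.2.1, q.1.2.2.1, q.1.2.2.2)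

theorem qr_pos (q : QQ) : 0 < (qr q).2.1 := by
  have := q.2.1
  simp only [qr]
  exact_mod_cast this

theorem qr_lt (q : QQ) : (qr q).2.1 < (qr q).2.2.2 := by
  have := q.2.2
  simp only [qr]
  exact_mod_cast this

/-- values at rational quadruples -/
def VV (l : ℝ → ℝ → ℝ → ℝ → ℝ) (q : QQ) : ℝ := ev l (qr q)

theorem exists_seq_rat (x : ℝ) {u : ℝ} (hu : x < u) :
    ∃ r : ℕ → ℚ, (∀ m, x < r m ∧ (r m : ℝ) < u) ∧ Tendsto (fun m => (r m : ℝ)) atTop (𝓝 x) := by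
  have h : ∀ m : ℕ, ∃ r : ℚ, x < r ∧ (r : ℝ) < min u (x + 1 / ((m : ℝ) + 1)) := by
    intro m
    exact exists_rat_btwn (lt_min hu (by linarith [show (0:ℝ) < 1 / ((m : ℝ) + 1) by positivity]))
  choose r hr using h
  refine ⟨r, fun m => ⟨(hr m).1, lt_of_lt_of_le (hr m).2 (min_le_left _ _)⟩, ?_⟩
  refine tendsto_of_tendsto_of_tendsto_of_le_of_le (tendsto_const_nhds (x := x))
    (h := fun m : ℕ => x + 1 / ((m : ℝ) + 1)) ?_ ?_ ?_
  · have := (tendsto_one_div_add_atTop_nhds_zero_nat (𝕜 := ℝ)).const_add x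
    simpa using this
  · exact fun m => (hr m).1.le
  · exact fun m => ((hr m).2.trans_le (min_le_right _ _)).le

theorem exists_seq_QQ (x s y t : ℝ) (hs : 0 ≤ s) (hst : s < t) :
    ∃ q : ℕ → QQ, Tendsto (fun m => qr (q m)) atTop (𝓝 (x, s, y, t)) := by
  obtain ⟨r1, -, h1⟩ := exists_seq_rat x (lt_add_one x)
  obtain ⟨r2, h2', h2⟩ := exists_seq_rat s hst
  obtain ⟨r3, -, h3⟩ := exists_seq_rat y (lt_add_one y)
  obtain ⟨r4, h4', h4⟩ := exists_seq_rat t (lt_add_one t)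
  refine ⟨fun m => ⟨(r1 m, r2 m, r3 m, r4 m), ?_, ?_⟩, ?_⟩
  · have := lt_of_le_of_lt hs (h2' m).1
    exact_mod_cast this
  · have := ((h2' m).2).trans (h4' m).1
    exact_mod_cast this
  · exact h1.prodMk_nhds (h2.prodMk_nhds (h3.prodMk_nhds h4))

section

variable {Ω : Type*} [MeasurableSpace Ω] {P : Measure Ω} [IsProbabilityMeasure P]
  {L : Ω → ℝ → ℝ → ℝ → ℝ → ℝ}

omit [IsProbabilityMeasure P] in
theorem tendsto_ev (hL : IsDirectedLandscape P L) (ω : Ω) {α : Type*} {f : Filter α}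
    {q : α → ℝ × ℝ × ℝ × ℝ} {q0 : ℝ × ℝ × ℝ × ℝ} (hq0 : q0.2.1 < q0.2.2.2)
    (hq : Tendsto q f (𝓝 q0)) : Tendsto (fun a => ev (L ω) (q a)) f (𝓝 (ev (L ω) q0)) := by
  have ho : IsOpen {q : ℝ × ℝ × ℝ × ℝ | q.2.1 < q.2.2.2} :=
    isOpen_lt (by fun_prop) (by fun_prop)
  have h1 := (hL.cont ω).continuousAt (ho.mem_nhds hq0)
  exact h1.tendsto.comp hq

theorem measurable_VV (hL : IsDirectedLandscape P L) : Measurable fun ω => VV (L ω) :=
  measurable_pi_lambda _ fun q => hL.meas _ _ (qr_lt q)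

omit [IsProbabilityMeasure P] in
theorem measurable_comap_VV (hL : IsDirectedLandscape P L) (x s y t : ℝ) (hs : 0 ≤ s)
    (hst : s < t) :
    Measurable[MeasurableSpace.comap (fun ω => VV (L ω)) inferInstance]
      fun ω => L ω x s y t := by
  obtain ⟨q, hq⟩ := exists_seq_QQ x s y t hs hst
  refine @measurable_of_tendsto_metrizable _ _
    (MeasurableSpace.comap (fun ω => VV (L ω)) inferInstance) _ _ _ _
    (fun (m : ℕ) ω => VV (L ω) (q m)) _ ?_ ?_
  · intro m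
    have h1 : Measurable fun v : QQ → ℝ => v (q m) := measurable_pi_apply _
    exact h1.comp (comap_measurable _)
  · rw [tendsto_pi_nhds]
    intro ω
    exact tendsto_ev hL ω (q0 := (x, s, y, t)) hst hq

omit [IsProbabilityMeasure P] in
theorem tendsto_VV_resc (hL : IsDirectedLandscape P L) (ω : Ω) {τ : ℕ → ℝ}
    (hτ : Tendsto τ atTop (𝓝 0)) :
    Tendsto (fun n => VV (resc (L ω) (τ n) (1 - τ n))) atTop (𝓝 (VV (L ω))) := by
  rw [tendsto_pi_nhds]
  intro q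
  have hc : Tendsto (fun n => 1 - τ n) atTop (𝓝 1) := by simpa using hτ.const_sub 1
  have hc3 : ∀ e : ℝ, 0 < e → Tendsto (fun n => (1 - τ n) ^ e) atTop (𝓝 1) := by
    intro e he
    have := hc.rpow_const (p := e) (Or.inr he.le)
    simpa using this
  have h1 := (hc3 (1 / 3) (by norm_num)).inv₀ one_ne_zero
  have h2 := hc3 (2 / 3) (by norm_num)
  have h3 : Tendsto (fun n => (((1 - τ n) ^ (2 / 3 : ℝ) * (qr q).1,
      τ n + (1 - τ n) * (qr q).2.1, (1 - τ n) ^ (2 / 3 : ℝ) * (qr q).2.2.1,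
      τ n + (1 - τ n) * (qr q).2.2.2) : ℝ × ℝ × ℝ × ℝ)) atTop (𝓝 (qr q)) := by
    have e1 := h2.mul_const (qr q).1
    have e2 := hτ.add (hc.mul_const (qr q).2.1)
    have e3 := h2.mul_const (qr q).2.2.1
    have e4 := hτ.add (hc.mul_const (qr q).2.2.2)
    have := e1.prodMk_nhds (e2.prodMk_nhds (e3.prodMk_nhds e4))
    simpa using this
  have h4 := tendsto_ev hL ω (qr_lt q) h3
  have h5 := h1.mul h4
  simpa [VV, ev, resc] using h5

/-- the germ after time `ε³ T` is the germ at `0` of the rescaled landscape -/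
theorem germ_eq (l : ℝ → ℝ → ℝ → ℝ → ℝ) {T ε : ℝ} (hε : 0 < ε) (hτ : ε ^ 3 * T < 1) (y : ℝ) :
    germ l T ε y = (ε * ((1 - ε ^ 3 * T) ^ (1 / 3 : ℝ))⁻¹)⁻¹ *
      (resc l (ε ^ 3 * T) (1 - ε ^ 3 * T)
        ((ε * ((1 - ε ^ 3 * T) ^ (1 / 3 : ℝ))⁻¹) ^ 2 * y) 0 0 1 -
        resc l (ε ^ 3 * T) (1 - ε ^ 3 * T) 0 0 0 1) := by
  have hc : 0 < 1 - ε ^ 3 * T := by linarith
  set c : ℝ := 1 - ε ^ 3 * T with hcdef
  set d : ℝ := c ^ (1 / 3 : ℝ) with hd
  have hd0 : 0 < d := Real.rpow_pos_of_pos hc _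
  have h1 : c ^ (2 / 3 : ℝ) = d ^ 2 := by
    rw [hd, ← Real.rpow_natCast, ← Real.rpow_mul hc.le]
    norm_num
  have h2 : c ^ (2 / 3 : ℝ) * ((ε * d⁻¹) ^ 2 * y) = ε ^ 2 * y := by
    rw [h1]
    field_simp
  have h3 : ε ^ 3 * T + c * 1 = 1 := by rw [hcdef]; ring
  simp only [germ, resc]
  rw [← hd, h2, h3]
  simp only [mul_zero, add_zero]
  field_simp

theorem resc_independent (hL : IsDirectedLandscape P L) {T ε : ℝ} (hε : 0 < ε)
    (hτ : ε ^ 3 * T < 1) {ι κ : Type*} [Countable ι] [Countable κ] (q : ι → Q4I 0 T)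
    (y : κ → ℝ) :
    IndepFun (fun ω i => ev (resc (L ω) 0 (ε ^ 3)) (q i)) (fun ω =>
      ((fun k => germ (L ω) T ε (y k)), VV (resc (L ω) (ε ^ 3 * T) (1 - ε ^ 3 * T)))) P := by
  have hI := hL.indep_past_future 0 (ε ^ 3 * T)
  have hc : 0 < 1 - ε ^ 3 * T := by linarith
  have e3 : 0 < ε ^ 3 := pow_pos hε 3
  have hq : ∀ i, (0 : ℝ) ≤ 0 + ε ^ 3 * (q i).1.2.1 ∧
      0 + ε ^ 3 * (q i).1.2.1 < 0 + ε ^ 3 * (q i).1.2.2.2 ∧
      0 + ε ^ 3 * (q i).1.2.2.2 ≤ ε ^ 3 * T := by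
    intro i
    obtain ⟨h1, h2, h3⟩ := (q i).2
    refine ⟨?_, ?_, ?_⟩
    · have := mul_nonneg e3.le h1
      linarith
    · have := mul_lt_mul_of_pos_left h2 e3
      linarith
    · have := mul_le_mul_of_nonneg_left h3 e3.le
      linarith
  have hg : ε ^ 3 * T ≤ ε ^ 3 * T ∧ ε ^ 3 * T < 1 := ⟨le_rfl, hτ⟩
  have hv : ∀ r : QQ, ε ^ 3 * T ≤ ε ^ 3 * T + (1 - ε ^ 3 * T) * (qr r).2.1 ∧
      ε ^ 3 * T + (1 - ε ^ 3 * T) * (qr r).2.1 <
        ε ^ 3 * T + (1 - ε ^ 3 * T) * (qr r).2.2.2 := by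
    intro r
    have h1 := mul_pos hc (qr_pos r)
    have h2 := mul_lt_mul_of_pos_left (qr_lt r) hc
    constructor <;> linarith
  have mφ : Measurable fun (u : Q4I 0 (ε ^ 3 * T) → ℝ) (i : ι) =>
      ((ε ^ 3) ^ (1 / 3 : ℝ))⁻¹ * u ⟨((ε ^ 3) ^ (2 / 3 : ℝ) * (q i).1.1,
        0 + ε ^ 3 * (q i).1.2.1, (ε ^ 3) ^ (2 / 3 : ℝ) * (q i).1.2.2.1,
        0 + ε ^ 3 * (q i).1.2.2.2), hq i⟩ :=
    measurable_pi_lambda _ fun i => (measurable_pi_apply _).const_mul _
  have mψ : Measurable fun (u : Q4F (ε ^ 3 * T) → ℝ) =>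
      (((fun k => ε⁻¹ * (u ⟨(ε ^ 2 * y k, ε ^ 3 * T, 0, 1), hg⟩ -
        u ⟨(0, ε ^ 3 * T, 0, 1), hg⟩)), fun r : QQ =>
          ((1 - ε ^ 3 * T) ^ (1 / 3 : ℝ))⁻¹ * u ⟨((1 - ε ^ 3 * T) ^ (2 / 3 : ℝ) * (qr r).1,
            ε ^ 3 * T + (1 - ε ^ 3 * T) * (qr r).2.1,
            (1 - ε ^ 3 * T) ^ (2 / 3 : ℝ) * (qr r).2.2.1,
            ε ^ 3 * T + (1 - ε ^ 3 * T) * (qr r).2.2.2), hv r⟩) : (κ → ℝ) × (QQ → ℝ)) := by
    refine Measurable.prodMk ?_ ?_
    · refine measurable_pi_lambda _ fun k => ?_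
      have m1 : Measurable fun c : Q4F (ε ^ 3 * T) → ℝ =>
          c ⟨(ε ^ 2 * y k, ε ^ 3 * T, 0, 1), hg⟩ := measurable_pi_apply _
      have m2 : Measurable fun c : Q4F (ε ^ 3 * T) → ℝ =>
          c ⟨(0, ε ^ 3 * T, 0, 1), hg⟩ := measurable_pi_apply _
      exact (m1.sub m2).const_mul _
    · exact measurable_pi_lambda _ fun r => (measurable_pi_apply _).const_mul _
  exact hI.comp mφ mψ

/-- the law of functionals of a landscape -/
theorem map_eq_of_landscape {Ω' : Type*} [MeasurableSpace Ω'] {P' : Measure Ω'}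
    [IsProbabilityMeasure P'] {L' : Ω' → ℝ → ℝ → ℝ → ℝ → ℝ} (hL : IsDirectedLandscape P L)
    (hL' : IsDirectedLandscape P' L') {α : Type*} [MeasurableSpace α] {Φ : (Q4 → ℝ) → α}
    (hΦ : Measurable Φ) :
    P.map (fun ω => Φ fun q => ev (L ω) q) = P'.map (fun ω => Φ fun q => ev (L' ω) q) := by
  have h := hL.unique hL'
  have m1 : Measurable fun ω (q : Q4) => ev (L ω) q :=
    measurable_pi_lambda _ fun q => hL.meas _ _ q.2
  have m2 : Measurable fun ω (q : Q4) => ev (L' ω) q :=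
    measurable_pi_lambda _ fun q => hL'.meas _ _ q.2
  have e1 : P.map (fun ω => Φ fun q => ev (L ω) q) = (P.map fun ω (q : Q4) => ev (L ω) q).map Φ :=
    (Measure.map_map hΦ m1).symm
  have e2 : P'.map (fun ω => Φ fun q => ev (L' ω) q) =
      (P'.map fun ω (q : Q4) => ev (L' ω) q).map Φ :=
    (Measure.map_map hΦ m2).symm
  rw [e1, e2, h]

/-- integrating a function of two independent random elements -/
theorem integral_indep {Ω α β : Type*} [MeasurableSpace Ω] [MeasurableSpace α]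
    [MeasurableSpace β] {P : Measure Ω} [IsProbabilityMeasure P] {U : Ω → α} {W : Ω → β}
    (hU : Measurable U) (hW : Measurable W) (hI : IndepFun U W P) {F : α × β → ℝ}
    (hF : Measurable F) {M : ℝ} (hM : ∀ z, |F z| ≤ M) :
    ∫ ω, F (U ω, W ω) ∂P = ∫ u, (∫ ω, F (u, W ω) ∂P) ∂(P.map U) := by
  have h1 := (indepFun_iff_map_prod_eq_prod_map_map hU.aemeasurable hW.aemeasurable).1 hI
  have : IsProbabilityMeasure (P.map U) := Measure.isProbabilityMeasure_map hU.aemeasurable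
  have : IsProbabilityMeasure (P.map W) := Measure.isProbabilityMeasure_map hW.aemeasurable
  have h2 : ∫ ω, F (U ω, W ω) ∂P = ∫ z, F z ∂(P.map fun ω => (U ω, W ω)) :=
    (integral_map (hU.prodMk hW).aemeasurable hF.aestronglyMeasurable).symm
  have hint : Integrable F ((P.map U).prod (P.map W)) :=
    Integrable.of_bound hF.aestronglyMeasurable M (Eventually.of_forall hM)
  rw [h2, h1, integral_prod _ hint]
  refine integral_congr_ae (Eventually.of_forall fun u => ?_)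
  exact integral_map hW.aemeasurable (hF.comp measurable_prodMk_left).aestronglyMeasurable

/-- the case of a bounded continuous function of the values at rational quadruples -/
theorem mix_bounded {Ωb : Type*} [MeasurableSpace Ωb] {Pb : Measure Ωb} [IsProbabilityMeasure Pb]
    {b : Ωb → ℝ → ℝ} (hL : IsDirectedLandscape P L) (hb : IsBM Pb b) {T K : ℝ}
    {ι κ : Type*} [Countable ι] [Countable κ] (q : ι → Q4I 0 T) (y : κ → ℝ)
    (hy : ∀ k, |y k| ≤ K) {E : Set ((ι → ℝ) × (κ → ℝ))} (hE : MeasurableSet E)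
    {ε : ℕ → ℝ} (hε : ∀ n, 0 < ε n) (hε0 : Tendsto ε atTop (𝓝 0)) (hτ : ∀ n, ε n ^ 3 * T < 1)
    {f : (QQ → ℝ) → ℝ} (hf : Continuous f) {M : ℝ} (hM : ∀ v, |f v| ≤ M) :
    Tendsto (fun n => ∫ ω in {ω | ((fun i => ev (resc (L ω) 0 (ε n ^ 3)) (q i)),
        (fun k => germ (L ω) T (ε n) (y k))) ∈ E}, f (VV (L ω)) ∂P) atTop
      (𝓝 ((∫ ω, f (VV (L ω)) ∂P) * ((P.prod Pb) {z | ((fun i => ev (L z.1) (q i)),
        (fun k => b z.2 (y k))) ∈ E}).toReal)) := by
  have hq : ∀ i, (q i).1.2.1 < (q i).1.2.2.2 := fun i => (q i).2.2.1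
  have mV := measurable_VV hL
  have mres : ∀ n, IsDirectedLandscape P fun ω => resc (L ω) (ε n ^ 3 * T) (1 - ε n ^ 3 * T) :=
    fun n => hL.rescale _ (by linarith [hτ n])
  have mres0 : ∀ n, IsDirectedLandscape P fun ω => resc (L ω) 0 (ε n ^ 3) :=
    fun n => hL.rescale _ (pow_pos (hε n) 3)
  have mU : ∀ n, Measurable fun ω i => ev (resc (L ω) 0 (ε n ^ 3)) (q i) := fun n =>
    measurable_pi_lambda _ fun i => (mres0 n).meas _ _ (hq i)
  have mG : ∀ n, Measurable fun ω k => germ (L ω) T (ε n) (y k) := fun n =>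
    measurable_pi_lambda _ fun k =>
      ((hL.meas _ _ (hτ n)).sub (hL.meas _ _ (hτ n))).const_mul _
  have mVr : ∀ n, Measurable fun ω => VV (resc (L ω) (ε n ^ 3 * T) (1 - ε n ^ 3 * T)) :=
    fun n => measurable_VV (mres n)
  have mQ : Measurable fun ω i => ev (L ω) (q i) :=
    measurable_pi_lambda _ fun i => hL.meas _ _ (hq i)
  have mY : Measurable fun ω k => b ω (y k) := measurable_pi_lambda _ fun k => hb.meas _
  have mev : ∀ n, MeasurableSet {ω | ((fun i => ev (resc (L ω) 0 (ε n ^ 3)) (q i)),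
        (fun k => germ (L ω) T (ε n) (y k))) ∈ E} := fun n => ((mU n).prodMk (mG n)) hE
  have hτ0 : Tendsto (fun n => ε n ^ 3 * T) atTop (𝓝 0) := by
    have := (hε0.pow 3).mul_const T
    simpa using this
  have hfb : ∀ g : Ω → QQ → ℝ, Measurable g → Integrable (fun ω => f (g ω)) P := fun g hg =>
    Integrable.of_bound (hf.measurable.comp hg).aestronglyMeasurable M
      (Eventually.of_forall fun ω => hM _)
  -- Step A
  have hA : Tendsto (fun n => ∫ ω, |f (VV (L ω)) -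
      f (VV (resc (L ω) (ε n ^ 3 * T) (1 - ε n ^ 3 * T)))| ∂P) atTop (𝓝 0) := by
    have h1 : Tendsto (fun n => ∫ ω, |f (VV (L ω)) -
      f (VV (resc (L ω) (ε n ^ 3 * T) (1 - ε n ^ 3 * T)))| ∂P) atTop (𝓝 (∫ _ω, (0 : ℝ) ∂P)) := by
      refine tendsto_integral_of_dominated_convergence (fun _ => M + M) ?_
        (integrable_const _) ?_ ?_
      · intro n
        exact ((hfb _ mV).sub (hfb _ (mVr n))).abs.aestronglyMeasurable
      · intro n
        refine Eventually.of_forall fun ω => ?_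
        rw [Real.norm_eq_abs, abs_abs]
        exact (abs_sub _ _).trans (add_le_add (hM _) (hM _))
      · refine Eventually.of_forall fun ω => ?_
        have h2 := (hf.tendsto _).comp (tendsto_VV_resc hL ω hτ0)
        have h3 := (h2.const_sub (f (VV (L ω)))).abs
        simpa using h3
    simpa using h1
  -- Step B
  set ε' : ℕ → ℝ := fun n => ε n * ((1 - ε n ^ 3 * T) ^ (1 / 3 : ℝ))⁻¹ with hε'
  have hε'0 : ∀ n, 0 < ε' n := fun n =>
    mul_pos (hε n) (inv_pos.2 (Real.rpow_pos_of_pos (by linarith [hτ n]) _))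
  have hε't : Tendsto ε' atTop (𝓝 0) := by
    have hc : Tendsto (fun n => 1 - ε n ^ 3 * T) atTop (𝓝 1) := by simpa using hτ0.const_sub 1
    have h1 := (hc.rpow_const (p := (1 / 3 : ℝ)) (Or.inr (by norm_num))).inv₀
      (by rw [Real.one_rpow]; exact one_ne_zero)
    have := hε0.mul h1
    rw [zero_mul] at this
    exact this
  set F : (ι → ℝ) × ((κ → ℝ) × (QQ → ℝ)) → ℝ :=
    ({z | (z.1, z.2.1) ∈ E} : Set ((ι → ℝ) × ((κ → ℝ) × (QQ → ℝ)))).indicator
      (fun z => f z.2.2) with hF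
  have mE' : MeasurableSet ({z | (z.1, z.2.1) ∈ E} : Set ((ι → ℝ) × ((κ → ℝ) × (QQ → ℝ)))) := by
    have : Measurable fun z : (ι → ℝ) × ((κ → ℝ) × (QQ → ℝ)) => (z.1, z.2.1) := by fun_prop
    exact this hE
  have mF : Measurable F :=
    (hf.measurable.comp (measurable_snd.comp measurable_snd)).indicator mE'
  have hFM : ∀ z, |F z| ≤ M := by
    intro z
    rw [hF]
    by_cases hz : z ∈ ({z | (z.1, z.2.1) ∈ E} : Set ((ι → ℝ) × ((κ → ℝ) × (QQ → ℝ))))
    · rw [indicator_of_mem hz]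
      exact hM _
    · rw [indicator_of_notMem hz, abs_zero]
      exact (abs_nonneg _).trans (hM 0)
  have mG' : ∀ n, Measurable fun ω => (((fun k => (ε' n)⁻¹ *
      (L ω (ε' n ^ 2 * y k) 0 0 1 - L ω 0 0 0 1)), VV (L ω)) : (κ → ℝ) × (QQ → ℝ)) := fun n =>
    Measurable.prodMk (measurable_pi_lambda _ fun k =>
      ((hL.meas _ _ zero_lt_one).sub (hL.meas _ _ zero_lt_one)).const_mul _) mV
  have hF2 : ∀ n u, ∫ ω, F (u, ((fun k => (ε' n)⁻¹ *
        (L ω (ε' n ^ 2 * y k) 0 0 1 - L ω 0 0 0 1)), VV (L ω))) ∂P =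
      ∫ ω in {ω | (fun k => (ε' n)⁻¹ *
        (L ω (ε' n ^ 2 * y k) 0 0 1 - L ω 0 0 0 1)) ∈ {g | (u, g) ∈ E}}, f (VV (L ω)) ∂P := by
    intro n u
    have mEu : MeasurableSet {ω | (fun k => (ε' n)⁻¹ *
        (L ω (ε' n ^ 2 * y k) 0 0 1 - L ω 0 0 0 1)) ∈ {g | (u, g) ∈ E}} :=
      (measurable_const.prodMk (measurable_fst.comp (mG' n))) hE
    exact integral_indicator (f := fun ω => f (VV (L ω))) mEu
  have hB : ∀ n, ∫ ω in {ω | ((fun i => ev (resc (L ω) 0 (ε n ^ 3)) (q i)),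
        (fun k => germ (L ω) T (ε n) (y k))) ∈ E},
        f (VV (resc (L ω) (ε n ^ 3 * T) (1 - ε n ^ 3 * T))) ∂P =
      ∫ u, (∫ ω in {ω | (fun k => (ε' n)⁻¹ *
        (L ω (ε' n ^ 2 * y k) 0 0 1 - L ω 0 0 0 1)) ∈ {g | (u, g) ∈ E}}, f (VV (L ω)) ∂P)
          ∂(P.map fun ω i => ev (L ω) (q i)) := by
    intro n
    have h1 : ∫ ω in {ω | ((fun i => ev (resc (L ω) 0 (ε n ^ 3)) (q i)),
        (fun k => germ (L ω) T (ε n) (y k))) ∈ E},
        f (VV (resc (L ω) (ε n ^ 3 * T) (1 - ε n ^ 3 * T))) ∂P =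
        ∫ ω, F ((fun i => ev (resc (L ω) 0 (ε n ^ 3)) (q i)),
          ((fun k => germ (L ω) T (ε n) (y k)),
            VV (resc (L ω) (ε n ^ 3 * T) (1 - ε n ^ 3 * T)))) ∂P := by
      rw [← integral_indicator (mev n)]
      rfl
    have h2 := integral_indep (mU n) ((mG n).prodMk (mVr n))
      (resc_independent hL (hε n) (hτ n) q y) mF hFM
    rw [h1, h2]
    have mΦ : Measurable fun (v : Q4 → ℝ) (i : ι) => v ⟨(q i).1, hq i⟩ :=
      measurable_pi_lambda _ fun i => measurable_pi_apply _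
    have h3 : (P.map fun ω i => ev (resc (L ω) 0 (ε n ^ 3)) (q i)) =
        P.map fun ω i => ev (L ω) (q i) := map_eq_of_landscape (mres0 n) hL mΦ
    rw [h3]
    refine integral_congr_ae (Eventually.of_forall fun u => ?_)
    have mΨ : Measurable fun (v : Q4 → ℝ) => (((fun k => (ε' n)⁻¹ *
        (v ⟨(ε' n ^ 2 * y k, 0, 0, 1), zero_lt_one⟩ - v ⟨(0, 0, 0, 1), zero_lt_one⟩)),
        fun r : QQ => v ⟨qr r, qr_lt r⟩) : (κ → ℝ) × (QQ → ℝ)) := by
      refine Measurable.prodMk ?_ ?_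
      · refine measurable_pi_lambda _ fun k => ?_
        have m1 : Measurable fun v : Q4 → ℝ => v ⟨(ε' n ^ 2 * y k, 0, 0, 1), zero_lt_one⟩ :=
          measurable_pi_apply _
        have m2 : Measurable fun v : Q4 → ℝ => v ⟨(0, 0, 0, 1), zero_lt_one⟩ :=
          measurable_pi_apply _
        exact (m1.sub m2).const_mul _
      · exact measurable_pi_lambda _ fun r => measurable_pi_apply _
    have h4 := map_eq_of_landscape (mres n) hL mΨ
    have h5 : (fun ω => (((fun k => germ (L ω) T (ε n) (y k)),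
        VV (resc (L ω) (ε n ^ 3 * T) (1 - ε n ^ 3 * T))) : (κ → ℝ) × (QQ → ℝ))) =
        fun ω => (fun (v : Q4 → ℝ) => (((fun k => (ε' n)⁻¹ *
        (v ⟨(ε' n ^ 2 * y k, 0, 0, 1), zero_lt_one⟩ - v ⟨(0, 0, 0, 1), zero_lt_one⟩)),
        fun r : QQ => v ⟨qr r, qr_lt r⟩) : (κ → ℝ) × (QQ → ℝ)))
          (fun q => ev (resc (L ω) (ε n ^ 3 * T) (1 - ε n ^ 3 * T)) q) := by
      funext ω
      refine Prod.ext ?_ rfl
      funext k
      exact germ_eq (L ω) (hε n) (hτ n) (y k)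
    have mFu : Measurable fun w : (κ → ℝ) × (QQ → ℝ) => F (u, w) := mF.comp measurable_prodMk_left
    have h6 : ∫ ω, F (u, ((fun k => germ (L ω) T (ε n) (y k)),
            VV (resc (L ω) (ε n ^ 3 * T) (1 - ε n ^ 3 * T)))) ∂P =
        ∫ ω, F (u, ((fun k => (ε' n)⁻¹ *
        (L ω (ε' n ^ 2 * y k) 0 0 1 - L ω 0 0 0 1)), VV (L ω))) ∂P := by
      rw [← integral_map (φ := fun ω => (((fun k => germ (L ω) T (ε n) (y k)),
        VV (resc (L ω) (ε n ^ 3 * T) (1 - ε n ^ 3 * T))) : (κ → ℝ) × (QQ → ℝ)))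
        (f := fun w => F (u, w)) ((mG n).prodMk (mVr n)).aemeasurable mFu.aestronglyMeasurable,
        ← integral_map (φ := fun ω => (((fun k => (ε' n)⁻¹ *
        (L ω (ε' n ^ 2 * y k) 0 0 1 - L ω 0 0 0 1)), VV (L ω)) : (κ → ℝ) × (QQ → ℝ)))
        (f := fun w => F (u, w)) (mG' n).aemeasurable mFu.aestronglyMeasurable, h5, h4]
      rfl
    exact h6.trans (hF2 n u)
  -- Step C, D
  have : IsProbabilityMeasure (P.map fun ω i => ev (L ω) (q i)) :=
    Measure.isProbabilityMeasure_map mQ.aemeasurable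
  have hC : Tendsto (fun n => ∫ ω in {ω | ((fun i => ev (resc (L ω) 0 (ε n ^ 3)) (q i)),
        (fun k => germ (L ω) T (ε n) (y k))) ∈ E},
        f (VV (resc (L ω) (ε n ^ 3 * T) (1 - ε n ^ 3 * T))) ∂P) atTop
      (𝓝 (∫ u, (∫ ω, f (VV (L ω)) ∂P) * (Pb {ω | (fun k => b ω (y k)) ∈ {g | (u, g) ∈ E}}).toReal
        ∂(P.map fun ω i => ev (L ω) (q i)))) := by
    simp_rw [hB]
    refine tendsto_integral_of_dominated_convergence (fun _ => M) ?_ (integrable_const _) ?_ ?_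
    · intro n
      simp_rw [← hF2]
      have m1 : Measurable fun z : (ι → ℝ) × Ω => F (z.1, ((fun k => (ε' n)⁻¹ *
        (L z.2 (ε' n ^ 2 * y k) 0 0 1 - L z.2 0 0 0 1)), VV (L z.2))) :=
        mF.comp (measurable_fst.prodMk ((mG' n).comp measurable_snd))
      exact (m1.stronglyMeasurable.integral_prod_right').aestronglyMeasurable
    · intro n
      refine Eventually.of_forall fun u => ?_
      rw [← hF2]
      have h1 := norm_integral_le_of_norm_le_const (μ := P) (C := M)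
        (f := fun ω => F (u, ((fun k => (ε' n)⁻¹ *
        (L ω (ε' n ^ 2 * y k) 0 0 1 - L ω 0 0 0 1)), VV (L ω))))
        (Eventually.of_forall fun ω => hFM _)
      simpa using h1
    · refine Eventually.of_forall fun u => ?_
      exact germ_lemma hL hb y hy (measurable_prodMk_left hE) hε'0 hε't (hfb _ mV)
  -- Step E
  have hE2 : ∫ u, (∫ ω, f (VV (L ω)) ∂P) * (Pb {ω | (fun k => b ω (y k)) ∈
      {g | (u, g) ∈ E}}).toReal ∂(P.map fun ω i => ev (L ω) (q i)) =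
      (∫ ω, f (VV (L ω)) ∂P) * ((P.prod Pb) {z | ((fun i => ev (L z.1) (q i)),
        (fun k => b z.2 (y k))) ∈ E}).toReal := by
    rw [integral_const_mul]
    congr 1
    have : IsProbabilityMeasure (Pb.map fun ω k => b ω (y k)) :=
      Measure.isProbabilityMeasure_map mY.aemeasurable
    have h1 : (P.prod Pb) {z | ((fun i => ev (L z.1) (q i)), (fun k => b z.2 (y k))) ∈ E} =
        ((P.map fun ω i => ev (L ω) (q i)).prod (Pb.map fun ω k => b ω (y k))) E := by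
      rw [Measure.map_prod_map _ _ mQ mY, Measure.map_apply (mQ.prodMap mY) hE]
      rfl
    have h2 : ∀ u, (Pb {ω | (fun k => b ω (y k)) ∈ {g | (u, g) ∈ E}}) =
        (Pb.map fun ω k => b ω (y k)) (Prod.mk u ⁻¹' E) := by
      intro u
      rw [Measure.map_apply mY (measurable_prodMk_left hE)]
      rfl
    rw [h1, Measure.prod_apply hE]
    simp_rw [h2]
    rw [integral_toReal (measurable_measure_prodMk_left hE).aemeasurable
      (Eventually.of_forall fun u => measure_lt_top _ _)]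
  rw [hE2] at hC
  have hD : Tendsto (fun n => (∫ ω in {ω | ((fun i => ev (resc (L ω) 0 (ε n ^ 3)) (q i)),
        (fun k => germ (L ω) T (ε n) (y k))) ∈ E}, f (VV (L ω)) ∂P) -
      ∫ ω in {ω | ((fun i => ev (resc (L ω) 0 (ε n ^ 3)) (q i)),
        (fun k => germ (L ω) T (ε n) (y k))) ∈ E},
        f (VV (resc (L ω) (ε n ^ 3 * T) (1 - ε n ^ 3 * T))) ∂P) atTop (𝓝 0) := by
    refine squeeze_zero_norm (fun n => ?_) hA
    rw [← integral_sub (hfb _ mV).integrableOn (hfb _ (mVr n)).integrableOn, Real.norm_eq_abs]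
    refine (abs_integral_le_integral_abs).trans ?_
    exact setIntegral_le_integral ((hfb _ mV).sub (hfb _ (mVr n))).abs
      (Eventually.of_forall fun _ => abs_nonneg _)
  have := hD.add hC
  simpa using this

end

end Pool.Agent.H70.DL
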