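import Pool.Agent.H70.DL.Growth
import Pool.Agent.H70.DL.MixA

/-! # Far values of random continuous functions. -/

open MeasureTheory ProbabilityTheory Filter Topology Set
open scoped ENNReal

namespace Pool.Agent.H70.DL

open Pool.Agent.H37.DL

/-- `f` exceeds the parabola `α x ^ 2` somewhere outside `[-K, K]` -/
def Far (K α : ℝ) (f : ℝ → ℝ) : Prop := ∃ x : ℝ, K < |x| ∧ α * x ^ 2 < f x

theorem far_iff_rat {f : ℝ → ℝ} (hf : Continuous f) (K α : ℝ) :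
    Far K α f ↔ ∃ r : ℚ, K < |(r : ℝ)| ∧ α * (r : ℝ) ^ 2 < f r := by
  constructor
  · rintro ⟨x, h1, h2⟩
    have ho : IsOpen {x : ℝ | K < |x| ∧ α * x ^ 2 < f x} :=
      (isOpen_lt continuous_const continuous_abs).inter (isOpen_lt (by fun_prop) hf)
    obtain ⟨r, hr⟩ := Rat.denseRange_cast.exists_mem_open ho ⟨x, h1, h2⟩
    exact ⟨r, hr⟩
  · rintro ⟨r, h1, h2⟩
    exact ⟨r, h1, h2⟩

theorem measurableSet_farQ (K α : ℝ) :
    MeasurableSet {f : ℝ → ℝ | ∃ r : ℚ, K < |(r : ℝ)| ∧ α * (r : ℝ) ^ 2 < f r} := by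
  have : {f : ℝ → ℝ | ∃ r : ℚ, K < |(r : ℝ)| ∧ α * (r : ℝ) ^ 2 < f r} =
      ⋃ r : ℚ, {f | K < |(r : ℝ)| ∧ α * (r : ℝ) ^ 2 < f r} := by
    ext f
    simp
  rw [this]
  refine MeasurableSet.iUnion fun r => ?_
  exact (MeasurableSet.const _).inter
    (measurableSet_lt measurable_const (measurable_pi_apply _))

variable {Ω : Type*} [MeasurableSpace Ω] {P : Measure Ω} [IsProbabilityMeasure P]

omit [IsProbabilityMeasure P] in
theorem far_measure {F : Ω → ℝ → ℝ} (hm : ∀ x, Measurable fun ω => F ω x)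
    (hc : ∀ ω, Continuous (F ω)) (K α : ℝ) :
    P {ω | Far K α (F ω)} =
      (P.map F) {f : ℝ → ℝ | ∃ r : ℚ, K < |(r : ℝ)| ∧ α * (r : ℝ) ^ 2 < f r} := by
  rw [Measure.map_apply (measurable_pi_lambda _ hm) (measurableSet_farQ K α)]
  congr 1
  ext ω
  exact far_iff_rat (hc ω) K α

omit [IsProbabilityMeasure P] in
theorem measurableSet_far {F : Ω → ℝ → ℝ} (hm : ∀ x, Measurable fun ω => F ω x)
    (hc : ∀ ω, Continuous (F ω)) (K α : ℝ) : MeasurableSet {ω | Far K α (F ω)} := by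
  have h := measurable_pi_lambda (fun ω => F ω) hm (measurableSet_farQ K α)
  have : {ω | Far K α (F ω)} =
      F ⁻¹' {f : ℝ → ℝ | ∃ r : ℚ, K < |(r : ℝ)| ∧ α * (r : ℝ) ^ 2 < f r} := by
    ext ω
    exact far_iff_rat (hc ω) K α
  rw [this]
  exact h

/-- if `F` is a.s. eventually below the parabola then `Far K` has small probability -/
theorem far_small {F : Ω → ℝ → ℝ} (hm : ∀ x, Measurable fun ω => F ω x)
    (hc : ∀ ω, Continuous (F ω)) {α : ℝ}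
    (h : ∀ᵐ ω ∂P, ∃ R : ℝ, ∀ x, R ≤ |x| → F ω x ≤ α * x ^ 2) {δ : ℝ≥0∞} (hδ : 0 < δ) :
    ∃ K₀ : ℝ, ∀ K, K₀ ≤ K → P {ω | Far K α (F ω)} ≤ δ := by
  have h1 : Tendsto (fun n : ℕ => P {ω | Far n α (F ω)}) atTop
      (𝓝 (P (⋂ n : ℕ, {ω | Far n α (F ω)}))) := by
    apply tendsto_measure_iInter_atTop
    · exact fun n => (measurableSet_far hm hc _ _).nullMeasurableSet
    · intro m n hmn ω hω
      obtain ⟨x, h1, h2⟩ := hω
      exact ⟨x, lt_of_le_of_lt (by exact_mod_cast hmn) h1, h2⟩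
    · exact ⟨0, measure_ne_top _ _⟩
  have h2 : P (⋂ n : ℕ, {ω | Far n α (F ω)}) = 0 := by
    rw [measure_eq_zero_iff_ae_notMem]
    filter_upwards [h] with ω hω hmem
    obtain ⟨R, hR⟩ := hω
    rw [mem_iInter] at hmem
    obtain ⟨n, hn⟩ := exists_nat_ge R
    obtain ⟨x, hx1, hx2⟩ := hmem n
    exact absurd (hR x (hn.trans hx1.le)) (not_le.2 hx2)
  rw [h2] at h1
  obtain ⟨n, hn⟩ := ((tendsto_order.1 h1).2 δ hδ).exists
  refine ⟨n, fun K hK => le_trans (measure_mono ?_) hn.le⟩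
  rintro ω ⟨x, h1, h2⟩
  exact ⟨x, lt_of_le_of_lt hK h1, h2⟩

/-- if `F` is a.s. dominated by a multiple of the parabola off `[-1, 1]` -/
theorem steep_small {F : Ω → ℝ → ℝ} (hm : ∀ x, Measurable fun ω => F ω x)
    (hc : ∀ ω, Continuous (F ω))
    (h : ∀ᵐ ω ∂P, ∃ M : ℝ, ∀ x, 1 < |x| → F ω x ≤ M * x ^ 2) {δ : ℝ≥0∞} (hδ : 0 < δ) :
    ∃ M₀ : ℝ, ∀ M, M₀ ≤ M → P {ω | Far 1 M (F ω)} ≤ δ := by
  have h1 : Tendsto (fun n : ℕ => P {ω | Far 1 n (F ω)}) atTop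
      (𝓝 (P (⋂ n : ℕ, {ω | Far 1 n (F ω)}))) := by
    apply tendsto_measure_iInter_atTop
    · exact fun n => (measurableSet_far hm hc _ _).nullMeasurableSet
    · intro m n hmn ω hω
      obtain ⟨x, h1, h2⟩ := hω
      refine ⟨x, h1, lt_of_le_of_lt ?_ h2⟩
      exact mul_le_mul_of_nonneg_right (by exact_mod_cast hmn) (sq_nonneg x)
    · exact ⟨0, measure_ne_top _ _⟩
  have h2 : P (⋂ n : ℕ, {ω | Far 1 n (F ω)}) = 0 := by
    rw [measure_eq_zero_iff_ae_notMem]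
    filter_upwards [h] with ω hω hmem
    obtain ⟨M, hM⟩ := hω
    rw [mem_iInter] at hmem
    obtain ⟨n, hn⟩ := exists_nat_ge M
    obtain ⟨x, hx1, hx2⟩ := hmem n
    exact absurd ((hM x hx1).trans (mul_le_mul_of_nonneg_right hn (sq_nonneg x))) (not_le.2 hx2)
  rw [h2] at h1
  obtain ⟨n, hn⟩ := ((tendsto_order.1 h1).2 δ hδ).exists
  refine ⟨n, fun M hM => le_trans (measure_mono ?_) hn.le⟩
  rintro ω ⟨x, h1, h2⟩
  exact ⟨x, h1, lt_of_le_of_lt (mul_le_mul_of_nonneg_right hM (sq_nonneg x)) h2⟩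

/-- quantitative absolute continuity -/
theorem ac_small {α : Type*} [MeasurableSpace α] {μ ν : Measure α} [IsFiniteMeasure μ]
    [IsFiniteMeasure ν] (hac : μ ≪ ν) {δ : ℝ≥0∞} (hδ : 0 < δ) :
    ∃ η : ℝ≥0∞, 0 < η ∧ ∀ A, MeasurableSet A → ν A < η → μ A ≤ δ := by
  obtain ⟨η, hη, h⟩ := exists_pos_setLIntegral_lt_of_measure_lt (μ := ν)
    (f := μ.rnDeriv ν) (by rw [Measure.lintegral_rnDeriv hac]; exact measure_ne_top _ _) hδ.ne'
  refine ⟨η, hη, fun A _ hA => ?_⟩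
  have := h A hA
  rw [Measure.setLIntegral_rnDeriv hac] at this
  exact this.le

section landscape

variable {L : Ω → ℝ → ℝ → ℝ → ℝ → ℝ}

omit [IsProbabilityMeasure P] in
theorem continuous_forward (hL : IsDirectedLandscape P L) (ω : Ω) {s t : ℝ} (hst : s < t)
    (x : ℝ) : Continuous fun y => L ω x s y t := by
  rw [continuous_iff_continuousAt]
  intro y
  exact tendsto_ev hL ω (q := fun y => (x, s, y, t)) (q0 := (x, s, y, t)) hst
    (Continuous.tendsto (by fun_prop) y)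

omit [IsProbabilityMeasure P] in
theorem continuous_backward (hL : IsDirectedLandscape P L) (ω : Ω) {s t : ℝ} (hst : s < t)
    (y : ℝ) : Continuous fun x => L ω x s y t := by
  rw [continuous_iff_continuousAt]
  intro x
  exact tendsto_ev hL ω (q := fun x => (x, s, y, t)) (q0 := (x, s, y, t)) hst
    (Continuous.tendsto (by fun_prop) x)

theorem forward_growth (hL : IsDirectedLandscape P L) {T : ℝ} (hT : 0 < T) {η : ℝ}
    (hη : 0 < η) :
    ∀ᵐ ω ∂P, ∃ R : ℝ, ∀ y, R ≤ |y| → L ω 0 0 y T ≤ -(1 - η) / T * y ^ 2 := by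
  have hS := hL.law 0 T hT
  filter_upwards [airy_growth hS hη] with ω hω
  obtain ⟨R, hR⟩ := hω
  have h23 : 0 < T ^ (2 / 3 : ℝ) := Real.rpow_pos_of_pos hT _
  have h13 : 0 < T ^ (1 / 3 : ℝ) := Real.rpow_pos_of_pos hT _
  have e1 : T ^ (2 / 3 : ℝ) = (T ^ (1 / 3 : ℝ)) ^ 2 := by
    rw [← Real.rpow_natCast, ← Real.rpow_mul hT.le]
    norm_num
  have e2 : (T ^ (1 / 3 : ℝ)) ^ 3 = T := by
    rw [← Real.rpow_natCast, ← Real.rpow_mul hT.le]
    norm_num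
  refine ⟨T ^ (2 / 3 : ℝ) * R, fun y hy => ?_⟩
  have h1 := hR ((T ^ (2 / 3 : ℝ))⁻¹ * y) (by
    rw [abs_mul, abs_of_pos (inv_pos.2 h23), ← div_eq_inv_mul, le_div_iff₀ h23]
    linarith)
  simp only [sub_zero, mul_zero] at h1
  rw [mul_inv_cancel_left₀ h23.ne'] at h1
  set d := T ^ (1 / 3 : ℝ) with hd
  rw [e1] at h1
  have h2 : d⁻¹ * L ω 0 0 y T ≤ -(1 - η) * ((d ^ 2)⁻¹ * y) ^ 2 := by linarith
  have h3 : L ω 0 0 y T = d * (d⁻¹ * L ω 0 0 y T) := by field_simp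
  rw [h3]
  refine (mul_le_mul_of_nonneg_left h2 h13.le).trans (le_of_eq ?_)
  rw [← e2]
  field_simp

theorem backward_growth (hL : IsDirectedLandscape P L) :
    ∀ᵐ ω ∂P, ∃ R : ℝ, ∀ z, R ≤ |z| → L ω z 0 0 1 ≤ 0 := by
  have hS := (hL.law 0 1 zero_lt_one).reflect
  filter_upwards [airy_growth hS one_pos] with ω hω
  obtain ⟨R, hR⟩ := hω
  refine ⟨R, fun z hz => ?_⟩
  have h1 := hR (-z) (by rwa [abs_neg])
  simp at h1
  linarith

end landscape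

end Pool.Agent.H70.DL
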