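import Pool.Agent.H37.DL.Land

/-! # Mixing, part 1: the germ of the backward profile. Paper 13.1. -/

open MeasureTheory ProbabilityTheory Filter Topology Set
open scoped ENNReal

namespace Pool.Agent.H70.DL

open Pool.Agent.H37.DL

/-- integral of a measurable function over an independent set -/
theorem setIntegral_indep {Ω : Type*} {m m0 : MeasurableSpace Ω} {P : Measure Ω}
    [IsProbabilityMeasure P] (hm : m ≤ m0) {B : Set Ω}
    (hB : MeasurableSet B) (hind : ∀ F, MeasurableSet[m] F → P (F ∩ B) = P F * P B)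
    {D : Ω → ℝ} (hD : Integrable D P) (hDm : StronglyMeasurable[m] D) :
    ∫ ω in B, D ω ∂P = (P B).toReal * ∫ ω, D ω ∂P := by
  have hle : MeasurableSpace.generateFrom {B} ≤ m0 := by
    apply MeasurableSpace.generateFrom_le
    intro t ht
    rw [mem_singleton_iff] at ht
    rw [ht]
    exact hB
  have hI : Indep m (MeasurableSpace.generateFrom {B}) P := by
    apply IndepSets.indep hm hle (@MeasurableSpace.isPiSystem_measurableSet _ m)
      (IsPiSystem.singleton B) (@MeasurableSpace.generateFrom_measurableSet _ m).symm rfl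
    rw [IndepSets_iff]
    intro t1 t2 ht1 ht2
    rw [mem_singleton_iff] at ht2
    rw [ht2]
    exact hind t1 ht1
  have h1 := condExp_indep_eq hm hle hDm hI
  have h2 : ∫ ω in B, (P[D|MeasurableSpace.generateFrom {B}]) ω ∂P = ∫ ω in B, D ω ∂P :=
    setIntegral_condExp hle hD (MeasurableSpace.measurableSet_generateFrom (mem_singleton B))
  rw [← h2, setIntegral_congr_ae hB (g := fun _ => P[D])
    (h1.mono fun ω hω _ => hω), setIntegral_const]
  simp [Measure.real]

/-- mixing against a filtration -/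
theorem tendsto_setIntegral_of_indep {Ω : Type*} {m0 : MeasurableSpace Ω} {P : Measure Ω}
    [IsProbabilityMeasure P] (ℱ : Filtration ℕ m0) {B : ℕ → Set Ω}
    (hB : ∀ n, MeasurableSet (B n)) {p : ℝ} (hp : ∀ᶠ n in atTop, (P (B n)).toReal = p)
    (hind : ∀ m, ∀ᶠ n in atTop, ∀ F, MeasurableSet[ℱ m] F → P (F ∩ B n) = P F * P (B n))
    {D : Ω → ℝ} (hD : Integrable D P) (hDm : StronglyMeasurable[⨆ n, ℱ n] D) :
    Tendsto (fun n => ∫ ω in B n, D ω ∂P) atTop (𝓝 ((∫ ω, D ω ∂P) * p)) := by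
  have hlim := hD.tendsto_eLpNorm_condExp hDm
  rw [Metric.tendsto_atTop]
  intro e he
  have h1 : ∀ᶠ m in atTop, eLpNorm (P[D|ℱ m] - D) 1 P < ENNReal.ofReal e :=
    (tendsto_order.1 hlim).2 _ (by simpa using he)
  obtain ⟨m, hm⟩ := h1.exists
  obtain ⟨n0, hn0⟩ := (hp.and (hind m)).exists_forall_of_atTop
  refine ⟨n0, fun n hn => ?_⟩
  obtain ⟨hpn, hin⟩ := hn0 n hn
  have hDi : Integrable (P[D|ℱ m]) P := integrable_condExp
  have h2 : ∫ ω in B n, (P[D|ℱ m]) ω ∂P = (P (B n)).toReal * ∫ ω, (P[D|ℱ m]) ω ∂P :=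
    setIntegral_indep (ℱ.le m) (hB n) hin hDi stronglyMeasurable_condExp
  have h3 : ∫ ω, (P[D|ℱ m]) ω ∂P = ∫ ω, D ω ∂P := integral_condExp (ℱ.le m)
  rw [h3, hpn] at h2
  have h4 : (∫ ω in B n, D ω ∂P) - (∫ ω, D ω ∂P) * p =
      -∫ ω in B n, ((P[D|ℱ m]) ω - D ω) ∂P := by
    rw [integral_sub hDi.integrableOn hD.integrableOn, h2]
    ring
  rw [Real.dist_eq, h4, abs_neg]
  have h5 : ∫ ω, |(P[D|ℱ m]) ω - D ω| ∂P < e := by
    have h6 : eLpNorm (P[D|ℱ m] - D) 1 P = ENNReal.ofReal (∫ ω, |(P[D|ℱ m]) ω - D ω| ∂P) := by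
      rw [eLpNorm_one_eq_lintegral_enorm, ← ofReal_integral_norm_eq_lintegral_enorm (hDi.sub hD)]
      rfl
    rw [h6] at hm
    exact (ENNReal.ofReal_lt_ofReal_iff he).1 hm
  refine lt_of_le_of_lt ?_ h5
  refine (abs_integral_le_integral_abs).trans ?_
  exact setIntegral_le_integral (hDi.sub hD).abs (Eventually.of_forall fun _ => abs_nonneg _)

/-- regrouping independent functions -/
theorem indepFun_assoc {Ω α β γ : Type*} [MeasurableSpace Ω] [MeasurableSpace α]
    [MeasurableSpace β] [MeasurableSpace γ] {P : Measure Ω} [IsProbabilityMeasure P]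
    {f : Ω → α} {g : Ω → β} {h : Ω → γ} (hf : Measurable f) (hg : Measurable g)
    (hh : Measurable h) (h1 : IndepFun f (fun ω => (g ω, h ω)) P) (h2 : IndepFun g h P) :
    IndepFun (fun ω => (f ω, g ω)) h P := by
  have e1 := (indepFun_iff_map_prod_eq_prod_map_map hf.aemeasurable
    (hg.prodMk hh).aemeasurable).1 h1
  have e2 := (indepFun_iff_map_prod_eq_prod_map_map hg.aemeasurable hh.aemeasurable).1 h2
  have h3 : IndepFun f g P := by
    have := h1.comp (φ := id) (ψ := Prod.fst) measurable_id measurable_fst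
    exact this
  have e3 := (indepFun_iff_map_prod_eq_prod_map_map hf.aemeasurable hg.aemeasurable).1 h3
  have : IsProbabilityMeasure (P.map f) := Measure.isProbabilityMeasure_map hf.aemeasurable
  have : IsProbabilityMeasure (P.map g) := Measure.isProbabilityMeasure_map hg.aemeasurable
  have : IsProbabilityMeasure (P.map h) := Measure.isProbabilityMeasure_map hh.aemeasurable
  rw [indepFun_iff_map_prod_eq_prod_map_map (hf.prodMk hg).aemeasurable hh.aemeasurable, e3]
  have e4 : (P.map fun ω => ((f ω, g ω), h ω)) =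
      (P.map fun ω => (f ω, (g ω, h ω))).map MeasurableEquiv.prodAssoc.symm := by
    rw [Measure.map_map MeasurableEquiv.prodAssoc.symm.measurable (hf.prodMk (hg.prodMk hh))]
    rfl
  rw [e4, e1, e2, ← Measure.prodAssoc_prod, MeasurableEquiv.map_symm_map]

section BM

variable {Ωb : Type*} [MeasurableSpace Ωb] {Pb : Measure Ωb} [IsProbabilityMeasure Pb]
  {b : Ωb → ℝ → ℝ}

/-- increments to the right of `δ` and to the left of `-δ` -/
def incrs (b : Ωb → ℝ → ℝ) (δ : ℝ) (ω : Ωb) : (Set.Ici δ → ℝ) × (Set.Iic (-δ) → ℝ) :=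
  (fun x => b ω x - b ω δ, fun x => b ω x - b ω (-δ))

theorem measurable_incrs (hb : ∀ x, Measurable fun ω => b ω x) (δ : ℝ) :
    Measurable (incrs b δ) := by
  unfold incrs
  refine Measurable.prodMk ?_ ?_ <;> refine measurable_pi_lambda _ fun x => ?_
  · exact (hb _).sub (hb _)
  · exact (hb _).sub (hb _)

theorem incrs_indep (hb : IsBM Pb b) {δ : ℝ} (hδ : 0 < δ) :
    IndepFun (incrs b δ) (fun ω (x : Set.Icc (-δ) δ) => b ω x) Pb := by
  have hR := hb.indep δ
  have hL := hb.indep (-δ)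
  have mR : Measurable fun ω (x : Set.Ici δ) => b ω x - b ω δ :=
    measurable_pi_lambda _ fun x => (hb.meas _).sub (hb.meas _)
  have mL : Measurable fun ω (x : Set.Iic (-δ)) => b ω x - b ω (-δ) :=
    measurable_pi_lambda _ fun x => (hb.meas _).sub (hb.meas _)
  have mM : Measurable fun ω (x : Set.Icc (-δ) δ) => b ω x :=
    measurable_pi_lambda _ fun x => hb.meas _
  refine indepFun_assoc mR mL mM ?_ ?_
  · have mφ : Measurable fun u : (Set.Iic δ → ℝ) =>
        ((fun x : Set.Iic (-δ) => u ⟨x, mem_Iic.2 (le_trans (mem_Iic.1 x.2) (by linarith))⟩ -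
            u ⟨-δ, by simp only [mem_Iic]; linarith⟩,
          fun x : Set.Icc (-δ) δ => u ⟨x, x.2.2⟩ - u ⟨0, by simp only [mem_Iic]; linarith⟩) :
          (Set.Iic (-δ) → ℝ) × (Set.Icc (-δ) δ → ℝ)) := by
      refine Measurable.prodMk ?_ ?_ <;> refine measurable_pi_lambda _ fun x => ?_
      · exact (measurable_pi_apply _).sub (measurable_pi_apply _)
      · exact (measurable_pi_apply _).sub (measurable_pi_apply _)
    have := hR.comp measurable_id mφ
    refine this.congr (Eventually.of_forall fun ω => rfl) (Eventually.of_forall fun ω => ?_)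
    simp only [Function.comp_apply, hb.zero ω]
    ext x <;> simp
  · have mφ : Measurable fun u : (Set.Ici (-δ) → ℝ) =>
        (fun x : Set.Icc (-δ) δ => u ⟨x, x.2.1⟩ - u ⟨0, by simp only [mem_Ici]; linarith⟩) := by
      refine measurable_pi_lambda _ fun x => ?_
      exact (measurable_pi_apply _).sub (measurable_pi_apply _)
    have := (hL.comp mφ measurable_id).symm
    refine this.congr (Eventually.of_forall fun ω => rfl) (Eventually.of_forall fun ω => ?_)
    simp only [Function.comp_apply, hb.zero ω]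
    ext x
    simp

/-- the filtration generated by the increments outside `(-1/(m+1), 1/(m+1))` -/
noncomputable def outerF (hb : ∀ x, Measurable fun ω => b ω x) :
    Filtration ℕ (inferInstance : MeasurableSpace Ωb) where
  seq m := MeasurableSpace.comap (incrs b (1 / ((m : ℝ) + 1))) inferInstance
  mono' := by
    intro m m' hmm
    have h0 : (1 : ℝ) / ((m' : ℝ) + 1) ≤ 1 / ((m : ℝ) + 1) := by
      apply one_div_le_one_div_of_le (by positivity)
      have : (m : ℝ) ≤ m' := by exact_mod_cast hmm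
      linarith
    set δ : ℝ := 1 / ((m : ℝ) + 1)
    set δ' : ℝ := 1 / ((m' : ℝ) + 1)
    have mφ : Measurable fun u : (Set.Ici δ' → ℝ) × (Set.Iic (-δ') → ℝ) =>
        ((fun x : Set.Ici δ => u.1 ⟨x, le_trans h0 x.2⟩ - u.1 ⟨δ, h0⟩,
          fun x : Set.Iic (-δ) => u.2 ⟨x, mem_Iic.2 (le_trans (mem_Iic.1 x.2)
            (neg_le_neg h0))⟩ - u.2 ⟨-δ, neg_le_neg h0⟩) : (Set.Ici δ → ℝ) × (Set.Iic (-δ) → ℝ)) := by
      refine Measurable.prodMk ?_ ?_ <;> refine measurable_pi_lambda _ fun x => ?_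
      · exact ((measurable_pi_apply _).comp measurable_fst).sub
          ((measurable_pi_apply _).comp measurable_fst)
      · exact ((measurable_pi_apply _).comp measurable_snd).sub
          ((measurable_pi_apply _).comp measurable_snd)
    have : incrs b δ = (fun u : (Set.Ici δ' → ℝ) × (Set.Iic (-δ') → ℝ) =>
        ((fun x : Set.Ici δ => u.1 ⟨x, le_trans h0 x.2⟩ - u.1 ⟨δ, h0⟩,
          fun x : Set.Iic (-δ) => u.2 ⟨x, mem_Iic.2 (le_trans (mem_Iic.1 x.2)
            (neg_le_neg h0))⟩ - u.2 ⟨-δ, neg_le_neg h0⟩) : (Set.Ici δ → ℝ) × (Set.Iic (-δ) → ℝ))) ∘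
        incrs b δ' := by
      funext ω
      simp only [incrs, Function.comp_apply]
      ext x <;> simp
    simp only
    rw [this, ← MeasurableSpace.comap_comp]
    exact MeasurableSpace.comap_mono mφ.comap_le
  le' m := (measurable_incrs hb _).comap_le

omit [IsProbabilityMeasure Pb] in
theorem measurable_outerF (hb : IsBM Pb b) (x : ℝ) :
    Measurable[⨆ m, outerF hb.meas m] fun ω => b ω x := by
  rcases lt_trichotomy x 0 with hx | hx | hx
  · refine @measurable_of_tendsto_metrizable _ _ (⨆ m, outerF hb.meas m) _ _ _ _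
      (fun (m : ℕ) ω => if h : x ≤ -(1 / ((m : ℝ) + 1)) then
        b ω x - b ω (-(1 / ((m : ℝ) + 1))) else 0) _ ?_ ?_
    · intro m
      by_cases h : x ≤ -(1 / ((m : ℝ) + 1))
      · simp only [h, dif_pos]
        have h1 : Measurable[outerF hb.meas m] fun ω => b ω x - b ω (-(1 / ((m : ℝ) + 1))) := by
          have h2 : Measurable[MeasurableSpace.comap (incrs b (1 / ((m : ℝ) + 1))) inferInstance]
              (incrs b (1 / ((m : ℝ) + 1))) := comap_measurable _
          exact ((measurable_pi_apply (⟨x, h⟩ : Set.Iic (-(1 / ((m : ℝ) + 1))))).comp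
            measurable_snd).comp h2
        exact h1.mono (le_iSup _ m) le_rfl
      · simp only [h, dif_neg, not_false_iff]
        exact @measurable_const _ _ _ (⨆ m, outerF hb.meas m) _
    · rw [tendsto_pi_nhds]
      intro ω
      have h1 : Tendsto (fun m : ℕ => b ω x - b ω (-(1 / ((m : ℝ) + 1)))) atTop (𝓝 (b ω x)) := by
        have h2 : Tendsto (fun m : ℕ => -(1 / ((m : ℝ) + 1))) atTop (𝓝 0) := by
          have := (tendsto_one_div_add_atTop_nhds_zero_nat (𝕜 := ℝ)).neg
          simpa using this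
        have h3 := ((hb.cont ω).tendsto 0).comp h2
        rw [hb.zero ω] at h3
        have := h3.const_sub (b ω x)
        simpa using this
      refine h1.congr' ?_
      have h2 : ∀ᶠ m : ℕ in atTop, 1 / ((m : ℝ) + 1) < -x :=
        (tendsto_order.1 (tendsto_one_div_add_atTop_nhds_zero_nat (𝕜 := ℝ))).2 _ (by linarith)
      filter_upwards [h2] with m hm
      rw [dif_pos (by linarith)]
  · subst hx
    have : (fun ω => b ω 0) = fun _ => 0 := funext hb.zero
    rw [this]
    exact @measurable_const _ _ _ (⨆ m, outerF hb.meas m) _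
  · refine @measurable_of_tendsto_metrizable _ _ (⨆ m, outerF hb.meas m) _ _ _ _
      (fun (m : ℕ) ω => if h : (1 / ((m : ℝ) + 1)) ≤ x then
        b ω x - b ω (1 / ((m : ℝ) + 1)) else 0) _ ?_ ?_
    · intro m
      by_cases h : (1 / ((m : ℝ) + 1)) ≤ x
      · simp only [h, dif_pos]
        have h1 : Measurable[outerF hb.meas m] fun ω => b ω x - b ω (1 / ((m : ℝ) + 1)) := by
          have h2 : Measurable[MeasurableSpace.comap (incrs b (1 / ((m : ℝ) + 1))) inferInstance]
              (incrs b (1 / ((m : ℝ) + 1))) := comap_measurable _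
          exact ((measurable_pi_apply (⟨x, h⟩ : Set.Ici (1 / ((m : ℝ) + 1)))).comp
            measurable_fst).comp h2
        exact h1.mono (le_iSup _ m) le_rfl
      · simp only [h, dif_neg, not_false_iff]
        exact @measurable_const _ _ _ (⨆ m, outerF hb.meas m) _
    · rw [tendsto_pi_nhds]
      intro ω
      have h1 : Tendsto (fun m : ℕ => b ω x - b ω (1 / ((m : ℝ) + 1))) atTop (𝓝 (b ω x)) := by
        have h2 := tendsto_one_div_add_atTop_nhds_zero_nat (𝕜 := ℝ)
        have h3 := ((hb.cont ω).tendsto 0).comp h2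
        rw [hb.zero ω] at h3
        have := h3.const_sub (b ω x)
        simpa using this
      refine h1.congr' ?_
      have h2 : ∀ᶠ m : ℕ in atTop, 1 / ((m : ℝ) + 1) < x :=
        (tendsto_order.1 (tendsto_one_div_add_atTop_nhds_zero_nat (𝕜 := ℝ))).2 _ hx
      filter_upwards [h2] with m hm
      rw [dif_pos hm.le]

/-- the random variable `ρ` as a density on the space of `Y` -/
theorem exists_density {Ω Ω' α : Type*} [MeasurableSpace Ω] {P : Measure Ω}
    [IsProbabilityMeasure P] [MeasurableSpace Ω'] {P' : Measure Ω'} [IsProbabilityMeasure P']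
    [MeasurableSpace α] {X : Ω → α} {Y : Ω' → α} (hX : Measurable X) (hY : Measurable Y)
    (hac : P.map X ≪ P'.map Y) {ρ : Ω → ℝ} (hρ : Integrable ρ P) :
    ∃ h : α → ℝ, StronglyMeasurable h ∧ Integrable (fun ω => h (Y ω)) P' ∧
      ∀ A, MeasurableSet A → ∫ ω in X ⁻¹' A, ρ ω ∂P = ∫ ω in Y ⁻¹' A, h (Y ω) ∂P' := by
  obtain ⟨g, hg, hge⟩ := (stronglyMeasurable_condExp (μ := P) (f := ρ)
    (m := MeasurableSpace.comap X inferInstance)).exists_eq_measurable_comp
  have hle : MeasurableSpace.comap X inferInstance ≤ (inferInstance : MeasurableSpace Ω) :=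
    hX.comap_le
  have hgi : Integrable g (P.map X) := by
    rw [integrable_map_measure hg.aestronglyMeasurable hX.aemeasurable, ← hge]
    exact integrable_condExp
  have : IsProbabilityMeasure (P.map X) := Measure.isProbabilityMeasure_map hX.aemeasurable
  have : IsProbabilityMeasure (P'.map Y) := Measure.isProbabilityMeasure_map hY.aemeasurable
  refine ⟨fun u => ((P.map X).rnDeriv (P'.map Y) u).toReal * g u, ?_, ?_, ?_⟩
  · exact ((Measure.measurable_rnDeriv _ _).ennreal_toReal.mul hg.measurable).stronglyMeasurable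
  · have h1 : Integrable (fun u => ((P.map X).rnDeriv (P'.map Y) u).toReal * g u) (P'.map Y) :=
      (integrable_toReal_rnDeriv_mul_iff hac).2 hgi
    exact h1.comp_measurable hY
  · intro A hA
    have h1 : ∫ ω in X ⁻¹' A, ρ ω ∂P = ∫ ω in X ⁻¹' A,
        (P[ρ|MeasurableSpace.comap X inferInstance]) ω ∂P :=
      (setIntegral_condExp hle hρ ⟨A, hA, rfl⟩).symm
    rw [h1, hge]
    have h2 : ∫ u in A, g u ∂(P.map X) = ∫ ω in X ⁻¹' A, (g ∘ X) ω ∂P :=
      setIntegral_map hA hg.aestronglyMeasurable hX.aemeasurable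
    have h3 : ∫ u in A, ((P.map X).rnDeriv (P'.map Y) u).toReal * g u ∂(P'.map Y) =
        ∫ ω in Y ⁻¹' A, ((P.map X).rnDeriv (P'.map Y) (Y ω)).toReal * g (Y ω) ∂P' :=
      setIntegral_map hA ((Measure.measurable_rnDeriv _ _).ennreal_toReal.mul
        hg.measurable).aestronglyMeasurable hY.aemeasurable
    rw [← h2, ← h3, setIntegral_toReal_rnDeriv_mul hac hA]

/-- germs of Brownian motion at `0` -/
theorem bm_germ (hb : IsBM Pb b) {κ : Type*} [Countable κ] {K : ℝ} (y : κ → ℝ)
    (hy : ∀ k, |y k| ≤ K) {A : Set (κ → ℝ)} (hA : MeasurableSet A) {ε : ℕ → ℝ}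
    (hε : ∀ n, 0 < ε n) (hε0 : Tendsto ε atTop (𝓝 0)) {h : (κ × ℕ → ℝ) → ℝ}
    (hh : StronglyMeasurable h)
    (hhi : Integrable (fun ω => h fun i => b ω (ε i.2 ^ 2 * y i.1)) Pb) :
    Tendsto (fun n => ∫ ω in (fun ω (i : κ × ℕ) => b ω (ε i.2 ^ 2 * y i.1)) ⁻¹'
        {u | (fun k => (ε n)⁻¹ * u (k, n)) ∈ A}, h (fun i => b ω (ε i.2 ^ 2 * y i.1)) ∂Pb) atTop
      (𝓝 ((∫ ω, h (fun i => b ω (ε i.2 ^ 2 * y i.1)) ∂Pb) *
        (Pb {ω | (fun k => b ω (y k)) ∈ A}).toReal)) := by
  have mY : Measurable fun ω (i : κ × ℕ) => b ω (ε i.2 ^ 2 * y i.1) :=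
    measurable_pi_lambda _ fun i => hb.meas _
  have mA : ∀ n, MeasurableSet {u : κ × ℕ → ℝ | (fun k => (ε n)⁻¹ * u (k, n)) ∈ A} := by
    intro n
    have : Measurable fun u : κ × ℕ → ℝ => fun k => (ε n)⁻¹ * u (k, n) :=
      measurable_pi_lambda _ fun k => (measurable_pi_apply _).const_mul _
    exact this hA
  refine tendsto_setIntegral_of_indep (outerF hb.meas) (fun n => mY (mA n)) ?_ ?_ hhi ?_
  · refine Eventually.of_forall fun n => ?_
    have h1 : Pb.map (fun ω x => (ε n)⁻¹ * b ω ((ε n) ^ 2 * x)) = Pb.map b :=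
      (hb.scale (hε n)).unique hb
    have mb : Measurable b := measurable_pi_lambda _ hb.meas
    have mb' : Measurable fun ω x => (ε n)⁻¹ * b ω ((ε n) ^ 2 * x) :=
      measurable_pi_lambda _ fun x => (hb.meas _).const_mul _
    have mS : MeasurableSet {f : ℝ → ℝ | (fun k => f (y k)) ∈ A} := by
      have : Measurable fun f : ℝ → ℝ => fun k => f (y k) :=
        measurable_pi_lambda _ fun k => measurable_pi_apply _
      exact this hA
    have h2 := congrArg (fun μ => μ {f : ℝ → ℝ | (fun k => f (y k)) ∈ A}) h1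
    rw [Measure.map_apply mb' mS, Measure.map_apply mb mS] at h2
    congr 1
  · intro m
    set δ : ℝ := 1 / ((m : ℝ) + 1) with hδ
    have hδ0 : 0 < δ := by positivity
    have h1 : Tendsto (fun n => (ε n) ^ 2 * |K|) atTop (𝓝 0) := by
      have := (hε0.pow 2).mul_const |K|
      simpa using this
    have h2 : ∀ᶠ n in atTop, (ε n) ^ 2 * |K| < δ := (tendsto_order.1 h1).2 _ hδ0
    filter_upwards [h2] with n hn F hF
    have hI := incrs_indep hb hδ0
    rw [IndepFun_iff] at hI
    apply hI F _ hF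
    have hyn : ∀ k, (ε n) ^ 2 * y k ∈ Set.Icc (-δ) δ := by
      intro k
      have h3 : |(ε n) ^ 2 * y k| ≤ δ := by
        rw [abs_mul, abs_of_pos (pow_pos (hε n) 2)]
        refine le_trans ?_ hn.le
        exact mul_le_mul_of_nonneg_left ((hy k).trans (le_abs_self K)) (pow_pos (hε n) 2).le
      exact abs_le.1 h3
    have mφ : Measurable fun u : (Set.Icc (-δ) δ → ℝ) => fun k => (ε n)⁻¹ * u ⟨_, hyn k⟩ :=
      measurable_pi_lambda _ fun k => (measurable_pi_apply _).const_mul _
    exact ⟨_, mφ hA, rfl⟩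
  · have h1 : Measurable[⨆ m, outerF hb.meas m] fun ω (i : κ × ℕ) => b ω (ε i.2 ^ 2 * y i.1) :=
      @measurable_pi_lambda _ _ _ (⨆ m, outerF hb.meas m) _ _ fun i => measurable_outerF hb _
    have h2 := hh.measurable.comp h1
    exact h2.stronglyMeasurable

end BM

/-- (13.1) the germ of the backward profile at `0` -/
theorem germ_lemma {Ω Ωb : Type*} [MeasurableSpace Ω] {P : Measure Ω} [IsProbabilityMeasure P]
    {L : Ω → ℝ → ℝ → ℝ → ℝ → ℝ} [MeasurableSpace Ωb] {Pb : Measure Ωb}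
    [IsProbabilityMeasure Pb] {b : Ωb → ℝ → ℝ} (hL : IsDirectedLandscape P L) (hb : IsBM Pb b)
    {κ : Type*} [Countable κ] {K : ℝ} (y : κ → ℝ)
    (hy : ∀ k, |y k| ≤ K) {A : Set (κ → ℝ)} (hA : MeasurableSet A) {ε : ℕ → ℝ}
    (hε : ∀ n, 0 < ε n) (hε0 : Tendsto ε atTop (𝓝 0)) {ρ : Ω → ℝ} (hρ : Integrable ρ P) :
    Tendsto (fun n => ∫ ω in {ω | (fun k => (ε n)⁻¹ *
        (L ω (ε n ^ 2 * y k) 0 0 1 - L ω 0 0 0 1)) ∈ A}, ρ ω ∂P) atTop
      (𝓝 ((∫ ω, ρ ω ∂P) * (Pb {ω | (fun k => b ω (y k)) ∈ A}).toReal)) := by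
  obtain ⟨M, hM⟩ := hε0.bddAbove_range
  have hM' : ∀ n, ε n ≤ M := fun n => hM ⟨n, rfl⟩
  have hx : ∀ i : κ × ℕ, |ε i.2 ^ 2 * y i.1| ≤ M ^ 2 * |K| := by
    intro i
    rw [abs_mul, abs_of_pos (pow_pos (hε i.2) 2)]
    exact mul_le_mul (pow_le_pow_left₀ (hε _).le (hM' _) 2) ((hy i.1).trans (le_abs_self K))
      (abs_nonneg _) (sq_nonneg _)
  have hac := hL.ac_backward hb zero_lt_one (fun i : κ × ℕ => ε i.2 ^ 2 * y i.1) _ hx
  have mX : Measurable fun ω (i : κ × ℕ) => L ω (ε i.2 ^ 2 * y i.1) 0 0 1 - L ω 0 0 0 1 :=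
    measurable_pi_lambda _ fun i => (hL.meas _ _ zero_lt_one).sub (hL.meas _ _ zero_lt_one)
  have mY : Measurable fun ω (i : κ × ℕ) => b ω (ε i.2 ^ 2 * y i.1) :=
    measurable_pi_lambda _ fun i => hb.meas _
  obtain ⟨h, hh, hhi, hhe⟩ := exists_density mX mY hac hρ
  have h1 := bm_germ hb y hy hA hε hε0 hh hhi
  have h2 : ∫ ω, h (fun i : κ × ℕ => b ω (ε i.2 ^ 2 * y i.1)) ∂Pb = ∫ ω, ρ ω ∂P := by
    have := hhe Set.univ MeasurableSet.univ
    simpa using this.symm
  rw [h2] at h1
  refine h1.congr fun n => ?_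
  have mA : MeasurableSet {u : κ × ℕ → ℝ | (fun k => (ε n)⁻¹ * u (k, n)) ∈ A} := by
    have : Measurable fun u : κ × ℕ → ℝ => fun k => (ε n)⁻¹ * u (k, n) :=
      measurable_pi_lambda _ fun k => (measurable_pi_apply _).const_mul _
    exact this hA
  exact (hhe _ mA).symm

end Pool.Agent.H70.DL
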