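import Pool.Agent.H37.DL.Land

/-! # Growth of the Airy sheet, from the upper tail. -/

open MeasureTheory ProbabilityTheory Filter Topology Set
open scoped ENNReal

namespace Pool.Agent.H70.DL

open Pool.Agent.H37.DL

/-- summability of the tail bounds -/
theorem summable_tail {C η : ℝ} (hC : 0 < C) (hη : 0 < η) : Summable fun j : ℕ =>
    C * Real.exp (-(4 / 3) * (1 + η * (j : ℝ) ^ 2) ^ (3 / 2 : ℝ) + C * (1 + η * (j : ℝ) ^ 2)) := by
  have h1 : Summable fun j : ℕ => C * Real.exp (-(η * (j : ℝ))) := by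
    apply Summable.mul_left
    have h2 := Real.summable_exp_nat_mul_iff.2 (neg_lt_zero.2 hη)
    refine h2.congr fun j => ?_
    congr 1
    ring
  refine Summable.of_norm_bounded_eventually_nat h1 ?_
  have h3 : Tendsto (fun j : ℕ => 1 + η * (j : ℝ) ^ 2) atTop atTop := by
    apply tendsto_atTop_add_const_left
    apply Tendsto.const_mul_atTop hη
    exact (tendsto_pow_atTop two_ne_zero).comp tendsto_natCast_atTop_atTop
  filter_upwards [h3.eventually_ge_atTop ((C + 1) ^ 2), eventually_ge_atTop 1] with j hj hj1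
  set h : ℝ := 1 + η * (j : ℝ) ^ 2 with hh
  have hj1' : (1 : ℝ) ≤ j := by exact_mod_cast hj1
  have hh1 : 1 ≤ h := by
    rw [hh]
    have : 0 ≤ η * (j : ℝ) ^ 2 := by positivity
    linarith
  have hs : C + 1 ≤ Real.sqrt h := by
    apply Real.le_sqrt_of_sq_le
    exact hj
  have h4 : h ^ (3 / 2 : ℝ) = h * Real.sqrt h := by
    rw [Real.sqrt_eq_rpow, show (3 / 2 : ℝ) = 1 + 1 / 2 by norm_num,
      Real.rpow_add (by linarith), Real.rpow_one]
  rw [Real.norm_of_nonneg (by positivity)]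
  apply mul_le_mul_of_nonneg_left _ hC.le
  apply Real.exp_le_exp.2
  rw [h4]
  have h5 : h * (C + 1) ≤ h * Real.sqrt h := mul_le_mul_of_nonneg_left hs (by linarith)
  have h6 : η * (j : ℝ) ≤ h := by
    rw [hh]
    nlinarith
  nlinarith [mul_nonneg (by linarith : (0:ℝ) ≤ h) (Real.sqrt_nonneg h)]

variable {Ω : Type*} [MeasurableSpace Ω] {P : Measure Ω} [IsProbabilityMeasure P]
  {S : Ω → ℝ × ℝ → ℝ}

theorem airy_growth_aux (hS : IsAirySheet P S) {η : ℝ} (hη : 0 < η) (σ : ℝ) :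
    ∀ᵐ ω ∂P, ∀ᶠ j : ℕ in atTop, ∀ y, |y - σ * j| ≤ 1 →
      S ω (0, y) + y ^ 2 < 1 + η * (j : ℝ) ^ 2 := by
  obtain ⟨C, hC, hup⟩ := hS.upper
  have h1 : (∑' j : ℕ, P {ω | ∃ y, |y - σ * j| ≤ 1 ∧ 1 + η * (j : ℝ) ^ 2 ≤
      S ω (0, y) + y ^ 2}) ≠ ∞ := by
    refine ne_top_of_le_ne_top (summable_tail hC hη).tsum_ofReal_ne_top ?_
    refine ENNReal.tsum_le_tsum fun j => ?_
    exact hup (σ * j) (1 + η * (j : ℝ) ^ 2) (by
      have : 0 ≤ η * (j : ℝ) ^ 2 := by positivity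
      linarith)
  filter_upwards [ae_eventually_notMem h1] with ω hω
  filter_upwards [hω] with j hj y hy
  by_contra hc
  exact hj ⟨y, hy, not_lt.1 hc⟩

/-- the parabolic decay of the Airy sheet -/
theorem airy_growth (hS : IsAirySheet P S) {η : ℝ} (hη : 0 < η) :
    ∀ᵐ ω ∂P, ∃ R : ℝ, ∀ y, R ≤ |y| → S ω (0, y) + y ^ 2 ≤ η * y ^ 2 := by
  filter_upwards [airy_growth_aux hS (half_pos hη) 1, airy_growth_aux hS (half_pos hη) (-1)]
    with ω h1 h2
  obtain ⟨n1, hn1⟩ := h1.exists_forall_of_atTop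
  obtain ⟨n2, hn2⟩ := h2.exists_forall_of_atTop
  refine ⟨(n1 : ℝ) + n2 + 1 + 2 / η, fun y hy => ?_⟩
  have hη2 : 0 < 2 / η := by positivity
  have hy1 : 1 ≤ |y| := by
    have : (0 : ℝ) ≤ n1 := Nat.cast_nonneg _
    have : (0 : ℝ) ≤ n2 := Nat.cast_nonneg _
    linarith
  have hy2 : 2 / η ≤ y ^ 2 := by
    rw [← sq_abs]
    have : (0 : ℝ) ≤ n1 := Nat.cast_nonneg _
    have : (0 : ℝ) ≤ n2 := Nat.cast_nonneg _
    nlinarith
  have hy3 : 1 ≤ η / 2 * y ^ 2 := by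
    rw [div_le_iff₀ hη] at hy2
    linarith
  set j := ⌊|y|⌋₊ with hj
  have hj1 : (j : ℝ) ≤ |y| := Nat.floor_le (abs_nonneg y)
  have hj2 : |y| < j + 1 := Nat.lt_floor_add_one |y|
  have hjn : n1 ≤ j ∧ n2 ≤ j := by
    constructor <;> apply Nat.le_floor
    · have : (0 : ℝ) ≤ n2 := Nat.cast_nonneg _
      linarith
    · have : (0 : ℝ) ≤ n1 := Nat.cast_nonneg _
      linarith
  have hj3 : η / 2 * (j : ℝ) ^ 2 ≤ η / 2 * y ^ 2 := by
    rw [← sq_abs y]
    apply mul_le_mul_of_nonneg_left _ (by positivity)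
    exact pow_le_pow_left₀ (Nat.cast_nonneg _) hj1 2
  rcases le_or_gt 0 y with h0 | h0
  · rw [abs_of_nonneg h0] at hj1 hj2
    have := hn1 j hjn.1 y (by rw [abs_le]; constructor <;> linarith)
    linarith
  · rw [abs_of_neg h0] at hj1 hj2
    have := hn2 j hjn.2 y (by rw [abs_le]; constructor <;> linarith)
    linarith

end Pool.Agent.H70.DL
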