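import Pool.Agent.H70.DL.MixA

/-! # Mixing, part 3: general densities. Paper 13.2. -/

open MeasureTheory ProbabilityTheory Filter Topology Set
open scoped ENNReal BoundedContinuousFunction

namespace Pool.Agent.H70.DL

open Pool.Agent.H37.DL

variable {Ω : Type*} [MeasurableSpace Ω] {P : Measure Ω} [IsProbabilityMeasure P]
  {L : Ω → ℝ → ℝ → ℝ → ℝ → ℝ}
  {Ωb : Type*} [MeasurableSpace Ωb] {Pb : Measure Ωb} [IsProbabilityMeasure Pb]
  {b : Ωb → ℝ → ℝ}

/-- the σ-algebra generated by the values at rational quadruples -/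
@[instance_reducible]
def sV {Ω : Type*} (L : Ω → ℝ → ℝ → ℝ → ℝ → ℝ) : MeasurableSpace Ω :=
  MeasurableSpace.comap (fun ω => VV (L ω)) inferInstance

theorem mix_seq (hL : IsDirectedLandscape P L) (hb : IsBM Pb b) {T K : ℝ} (hT : 0 < T)
    {ι κ : Type*} [Countable ι] [Countable κ] (q : ι → Q4I 0 T) (y : κ → ℝ)
    (hy : ∀ k, |y k| ≤ K) {E : Set ((ι → ℝ) × (κ → ℝ))} (hE : MeasurableSet E)
    {ε : ℕ → ℝ} (hε : ∀ n, 0 < ε n) (hε0 : Tendsto ε atTop (𝓝 0)) (hτ : ∀ n, ε n ^ 3 * T < 1)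
    {ρ : Ω → ℝ} (hρ : Integrable ρ P) :
    Tendsto (fun n => ∫ ω in {ω | ((fun i => ev (resc (L ω) 0 (ε n ^ 3)) (q i)),
        (fun k => germ (L ω) T (ε n) (y k))) ∈ E}, ρ ω ∂P) atTop
      (𝓝 ((∫ ω, ρ ω ∂P) * ((P.prod Pb) {z | ((fun i => ev (L z.1) (q i)),
        (fun k => b z.2 (y k))) ∈ E}).toReal)) := by
  have mV := measurable_VV hL
  have hle : sV L ≤ (inferInstance : MeasurableSpace Ω) := mV.comap_le
  have mev : ∀ n, MeasurableSet[sV L] {ω | ((fun i => ev (resc (L ω) 0 (ε n ^ 3)) (q i)),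
        (fun k => germ (L ω) T (ε n) (y k))) ∈ E} := by
    intro n
    have e3 : 0 < ε n ^ 3 := pow_pos (hε n) 3
    have m1 : Measurable[sV L] fun ω i => ev (resc (L ω) 0 (ε n ^ 3)) (q i) := by
      refine @measurable_pi_lambda _ _ _ (sV L) _ _ fun i => ?_
      obtain ⟨h1, h2, h3⟩ := (q i).2
      have h4 : Measurable[sV L] fun ω => L ω ((ε n ^ 3) ^ (2 / 3 : ℝ) * (q i).1.1)
          (0 + ε n ^ 3 * (q i).1.2.1) ((ε n ^ 3) ^ (2 / 3 : ℝ) * (q i).1.2.2.1)
          (0 + ε n ^ 3 * (q i).1.2.2.2) := by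
        apply measurable_comap_VV hL
        · have := mul_nonneg e3.le h1
          linarith
        · have := mul_lt_mul_of_pos_left h2 e3
          linarith
      exact h4.const_mul _
    have m2 : Measurable[sV L] fun ω k => germ (L ω) T (ε n) (y k) := by
      refine @measurable_pi_lambda _ _ _ (sV L) _ _ fun k => ?_
      have h4 : Measurable[sV L] fun ω => L ω (ε n ^ 2 * y k) (ε n ^ 3 * T) 0 1 :=
        measurable_comap_VV hL _ _ _ _ (by positivity) (hτ n)
      have h5 : Measurable[sV L] fun ω => L ω 0 (ε n ^ 3 * T) 0 1 :=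
        measurable_comap_VV hL _ _ _ _ (by positivity) (hτ n)
      exact (h4.sub h5).const_mul _
    exact (m1.prodMk m2) hE
  have mev' : ∀ n, MeasurableSet {ω | ((fun i => ev (resc (L ω) 0 (ε n ^ 3)) (q i)),
        (fun k => germ (L ω) T (ε n) (y k))) ∈ E} := fun n => hle _ (mev n)
  obtain ⟨g, hg, hge⟩ := (stronglyMeasurable_condExp (μ := P) (f := ρ)
    (m := sV L)).exists_eq_measurable_comp
  have : IsProbabilityMeasure (P.map fun ω => VV (L ω)) :=
    Measure.isProbabilityMeasure_map mV.aemeasurable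
  have hgi : Integrable (fun ω => g (VV (L ω))) P := by
    have : (fun ω => g (VV (L ω))) = P[ρ|sV L] := hge.symm
    rw [this]
    exact integrable_condExp
  have hgi' : Integrable g (P.map fun ω => VV (L ω)) := by
    rw [integrable_map_measure hg.aestronglyMeasurable mV.aemeasurable]
    exact hgi
  have h1 : ∀ n, ∫ ω in {ω | ((fun i => ev (resc (L ω) 0 (ε n ^ 3)) (q i)),
        (fun k => germ (L ω) T (ε n) (y k))) ∈ E}, ρ ω ∂P =
      ∫ ω in {ω | ((fun i => ev (resc (L ω) 0 (ε n ^ 3)) (q i)),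
        (fun k => germ (L ω) T (ε n) (y k))) ∈ E}, g (VV (L ω)) ∂P := by
    intro n
    rw [← setIntegral_condExp hle hρ (mev n), hge]
    rfl
  have h2 : ∫ ω, ρ ω ∂P = ∫ ω, g (VV (L ω)) ∂P := by
    rw [← integral_condExp hle, hge]
    rfl
  simp_rw [h1]
  rw [h2]
  set p : ℝ := ((P.prod Pb) {z | ((fun i => ev (L z.1) (q i)),
        (fun k => b z.2 (y k))) ∈ E}).toReal with hp
  have hp0 : 0 ≤ p := ENNReal.toReal_nonneg
  have hp1 : p ≤ 1 := by
    rw [hp]
    exact ENNReal.toReal_le_of_le_ofReal zero_le_one (by simpa using prob_le_one)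
  rw [Metric.tendsto_atTop]
  intro δ hδ
  obtain ⟨f, hf1, hf2⟩ := hgi'.exists_boundedContinuous_integral_sub_le (ε := δ / 3)
    (by positivity)
  have hfi : Integrable (fun ω => f (VV (L ω))) P := by
    have := (integrable_map_measure f.continuous.aestronglyMeasurable mV.aemeasurable).1 hf2
    exact this
  have h3 := mix_bounded hL hb q y hy hE hε hε0 hτ f.continuous (M := ‖f‖)
    (fun v => f.norm_coe_le_norm v)
  obtain ⟨n0, hn0⟩ := (Metric.tendsto_atTop.1 h3) (δ / 3) (by positivity)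
  refine ⟨n0, fun n hn => ?_⟩
  have h4 := hn0 n hn
  have h5 : ∫ ω, |g (VV (L ω)) - f (VV (L ω))| ∂P ≤ δ / 3 := by
    have h6 : ∫ v, ‖g v - f v‖ ∂(P.map fun ω => VV (L ω)) =
        ∫ ω, |g (VV (L ω)) - f (VV (L ω))| ∂P := by
      rw [integral_map mV.aemeasurable]
      · rfl
      · exact (hg.aestronglyMeasurable.sub f.continuous.aestronglyMeasurable).norm
    rw [← h6]
    exact hf1
  have h6 : |(∫ ω in {ω | ((fun i => ev (resc (L ω) 0 (ε n ^ 3)) (q i)),
        (fun k => germ (L ω) T (ε n) (y k))) ∈ E}, g (VV (L ω)) ∂P) -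
      ∫ ω in {ω | ((fun i => ev (resc (L ω) 0 (ε n ^ 3)) (q i)),
        (fun k => germ (L ω) T (ε n) (y k))) ∈ E}, f (VV (L ω)) ∂P| ≤ δ / 3 := by
    rw [← integral_sub hgi.integrableOn hfi.integrableOn]
    refine (abs_integral_le_integral_abs).trans (le_trans ?_ h5)
    exact setIntegral_le_integral (hgi.sub hfi).abs (Eventually.of_forall fun _ => abs_nonneg _)
  have h7 : |(∫ ω, g (VV (L ω)) ∂P) - ∫ ω, f (VV (L ω)) ∂P| ≤ δ / 3 := by
    rw [← integral_sub hgi hfi]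
    exact (abs_integral_le_integral_abs).trans h5
  rw [Real.dist_eq] at h4 ⊢
  set a1 := ∫ ω in {ω | ((fun i => ev (resc (L ω) 0 (ε n ^ 3)) (q i)),
        (fun k => germ (L ω) T (ε n) (y k))) ∈ E}, g (VV (L ω)) ∂P
  set a2 := ∫ ω in {ω | ((fun i => ev (resc (L ω) 0 (ε n ^ 3)) (q i)),
        (fun k => germ (L ω) T (ε n) (y k))) ∈ E}, f (VV (L ω)) ∂P
  set a3 := ∫ ω, g (VV (L ω)) ∂P
  set a4 := ∫ ω, f (VV (L ω)) ∂P
  have h8 : |a4 * p - a3 * p| ≤ δ / 3 := by
    rw [← sub_mul, abs_mul, abs_of_nonneg hp0, abs_sub_comm]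
    calc |a3 - a4| * p ≤ |a3 - a4| * 1 := mul_le_mul_of_nonneg_left hp1 (abs_nonneg _)
      _ ≤ δ / 3 := by rw [mul_one]; exact h7
  have h9 : a1 - a3 * p = (a1 - a2) + (a2 - a4 * p) + (a4 * p - a3 * p) := by ring
  rw [h9]
  calc |(a1 - a2) + (a2 - a4 * p) + (a4 * p - a3 * p)|
      ≤ |a1 - a2| + |a2 - a4 * p| + |a4 * p - a3 * p| := abs_add_three _ _ _
    _ < δ := by linarith

/-- (13.2) The landscape at scale `ε` near `(0,0)` and the germ of the backward profile at `0` are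
asymptotically independent of everything, jointly distributed as a landscape and an independent
Brownian motion (in total variation on countable families of coordinates). -/
theorem mix (hL : IsDirectedLandscape P L) (hb : IsBM Pb b) {T K : ℝ} (hT : 0 < T)
    {ι κ : Type} [Countable ι] [Countable κ] (q : ι → Q4I 0 T) (y : κ → ℝ)
    (hy : ∀ k, |y k| ≤ K) {E : Set ((ι → ℝ) × (κ → ℝ))} (hE : MeasurableSet E)
    {ρ : Ω → ℝ} (hρ : Integrable ρ P) :
    Tendsto (fun ε : ℝ => ∫ ω in {ω | ((fun i => ev (resc (L ω) 0 (ε ^ 3)) (q i)),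
        (fun k => germ (L ω) T ε (y k))) ∈ E}, ρ ω ∂P) (𝓝[>] 0)
      (𝓝 ((∫ ω, ρ ω ∂P) * ((P.prod Pb) {z | ((fun i => ev (L z.1) (q i)),
        (fun k => b z.2 (y k))) ∈ E}).toReal)) := by
  refine tendsto_of_seq_tendsto fun ε hε => ?_
  have h0 : Tendsto ε atTop (𝓝 0) := tendsto_nhds_of_tendsto_nhdsWithin hε
  have h1 : ∀ᶠ n in atTop, 0 < ε n := hε.eventually self_mem_nhdsWithin
  have h2 : ∀ᶠ n in atTop, ε n ^ 3 * T < 1 := by
    have h3 : Tendsto (fun n => ε n ^ 3 * T) atTop (𝓝 0) := by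
      have := (h0.pow 3).mul_const T
      simpa using this
    exact (tendsto_order.1 h3).2 _ zero_lt_one
  obtain ⟨n0, hn0⟩ := (h1.and h2).exists_forall_of_atTop
  have h3 := mix_seq hL hb hT q y hy hE (ε := fun n => ε (n + n0))
    (fun n => (hn0 _ (Nat.le_add_left _ _)).1) (h0.comp (tendsto_add_atTop_nat n0))
    (fun n => (hn0 _ (Nat.le_add_left _ _)).2) hρ
  exact (tendsto_add_atTop_iff_nat (f := fun n => ∫ ω in {ω |
    ((fun i => ev (resc (L ω) 0 (ε n ^ 3)) (q i)),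
        (fun k => germ (L ω) T (ε n) (y k))) ∈ E}, ρ ω ∂P) n0).1 h3

end Pool.Agent.H70.DL
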